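import Mathlib

/-!
Basic tools: weighted degrees and quadratic forms of a finite graph, a nonnegative top
eigenvector on a set of vertices, and the shifted positive semidefinite form.
-/

open Finset

set_option linter.unusedSectionVars false
set_option linter.unusedDecidableInType false
set_option linter.unusedFintypeInType false

namespace Pool.Agent.Work.MP_f94384_co

variable {V : Type*} [Fintype V] [DecidableEq V]

open Classical in
/-- the adjacency entries as real numbers -/
noncomputable def W (G : SimpleGraph V) (u v : V) : ℝ := if G.Adj u v then 1 else 0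

theorem W_symm (G : SimpleGraph V) (u v : V) : W G u v = W G v u := by
  unfold W
  by_cases h : G.Adj u v
  · rw [if_pos h, if_pos h.symm]
  · rw [if_neg h, if_neg fun h' => h h'.symm]

theorem W_self (G : SimpleGraph V) (u : V) : W G u u = 0 := by simp [W]

theorem W_nonneg (G : SimpleGraph V) (u v : V) : 0 ≤ W G u v := by
  unfold W; split_ifs <;> norm_num

theorem W_le_one (G : SimpleGraph V) (u v : V) : W G u v ≤ 1 := by
  unfold W; split_ifs <;> norm_num

theorem W_of_adj {G : SimpleGraph V} {u v : V} (h : G.Adj u v) : W G u v = 1 := by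
  simp [W, h]

theorem W_of_not_adj {G : SimpleGraph V} {u v : V} (h : ¬ G.Adj u v) : W G u v = 0 := by
  simp [W, h]

/-- weighted degree of `v` into `S` -/
noncomputable def deg (G : SimpleGraph V) (x : V → ℝ) (v : V) (S : Finset V) : ℝ :=
  ∑ u ∈ S, W G v u * x u

/-- the quadratic form restricted to `S` -/
noncomputable def qf (G : SimpleGraph V) (S : Finset V) (f : V → ℝ) : ℝ :=
  ∑ u ∈ S, f u * deg G f u S

/-- sum of squares over `S` -/
def sq (S : Finset V) (f : V → ℝ) : ℝ := ∑ u ∈ S, f u ^ 2

theorem sq_nonneg' (S : Finset V) (f : V → ℝ) : 0 ≤ sq S f :=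
  Finset.sum_nonneg fun _ _ => sq_nonneg _

theorem qf_eq (G : SimpleGraph V) (S : Finset V) (f : V → ℝ) :
    qf G S f = ∑ u ∈ S, ∑ v ∈ S, W G u v * f u * f v := by
  unfold qf deg
  refine Finset.sum_congr rfl fun u _ => ?_
  rw [Finset.mul_sum]
  exact Finset.sum_congr rfl fun v _ => by ring

theorem qf_restrict (G : SimpleGraph V) {S T : Finset V} (hST : S ⊆ T) (f : V → ℝ) :
    qf G T (fun v => if v ∈ S then f v else 0) = qf G S f := by
  rw [qf_eq, qf_eq]
  rw [← Finset.sum_subset hST]
  · refine Finset.sum_congr rfl fun u hu => ?_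
    rw [← Finset.sum_subset hST]
    · exact Finset.sum_congr rfl fun v hv => by simp [hu, hv]
    · intro v _ hv; simp [hv]
  · intro u _ hu
    simp [hu]

theorem sq_restrict {S T : Finset V} (hST : S ⊆ T) (f : V → ℝ) :
    sq T (fun v => if v ∈ S then f v else 0) = sq S f := by
  unfold sq
  rw [← Finset.sum_subset hST]
  · exact Finset.sum_congr rfl fun u hu => by simp [hu]
  · intro u _ hu
    simp [hu]

theorem qf_congr (G : SimpleGraph V) {S : Finset V} {f g : V → ℝ} (h : ∀ v ∈ S, f v = g v) :
    qf G S f = qf G S g := by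
  rw [qf_eq, qf_eq]
  exact Finset.sum_congr rfl fun u hu => Finset.sum_congr rfl fun v hv => by
    rw [h u hu, h v hv]

theorem sq_congr {S : Finset V} {f g : V → ℝ} (h : ∀ v ∈ S, f v = g v) :
    sq S f = sq S g :=
  Finset.sum_congr rfl fun u hu => by rw [h u hu]

theorem qf_smul (G : SimpleGraph V) (S : Finset V) (c : ℝ) (f : V → ℝ) :
    qf G S (fun v => c * f v) = c ^ 2 * qf G S f := by
  rw [qf_eq, qf_eq, Finset.mul_sum]
  refine Finset.sum_congr rfl fun u _ => ?_
  rw [Finset.mul_sum]
  exact Finset.sum_congr rfl fun v _ => by ring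

theorem sq_smul (S : Finset V) (c : ℝ) (f : V → ℝ) :
    sq S (fun v => c * f v) = c ^ 2 * sq S f := by
  unfold sq
  rw [Finset.mul_sum]
  exact Finset.sum_congr rfl fun v _ => by ring

/-- existence of a nonnegative maximiser of the Rayleigh quotient on `S` -/
theorem exists_max (G : SimpleGraph V) {S : Finset V} (hS : S.Nonempty) :
    ∃ x : V → ℝ, (∀ v, 0 ≤ x v) ∧ sq S x = 1 ∧ ∀ f, qf G S f ≤ qf G S x * sq S f := by
  classical
  set K : Set (V → ℝ) := {f | (∀ v ∉ S, f v = 0) ∧ sq S f = 1} with hK
  have hKc : IsCompact K := by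
    have hsub : K ⊆ Set.Icc (fun _ => (-1 : ℝ)) (fun _ => (1 : ℝ)) := by
      rintro f ⟨h1, h2⟩
      have hb : ∀ v, f v ^ 2 ≤ 1 := by
        intro v
        by_cases hv : v ∈ S
        · rw [← h2]
          exact Finset.single_le_sum (f := fun v => f v ^ 2) (fun _ _ => sq_nonneg _) hv
        · rw [h1 v hv]; norm_num
      constructor
      · intro v; exact (abs_le.1 ((sq_le_one_iff_abs_le_one _).1 (hb v))).1
      · intro v; exact (abs_le.1 ((sq_le_one_iff_abs_le_one _).1 (hb v))).2
    refine IsCompact.of_isClosed_subset isCompact_Icc ?_ hsub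
    apply IsClosed.inter
    · have : {f : V → ℝ | ∀ v ∉ S, f v = 0} = ⋂ v, ⋂ (_ : v ∉ S), {f : V → ℝ | f v = 0} := by
        ext f; simp
      show IsClosed {f : V → ℝ | ∀ v ∉ S, f v = 0}
      rw [this]
      exact isClosed_iInter fun v => isClosed_iInter fun _ =>
        isClosed_eq (continuous_apply v) continuous_const
    · show IsClosed {f : V → ℝ | sq S f = 1}
      refine isClosed_eq ?_ continuous_const
      unfold sq
      fun_prop
  have hKn : K.Nonempty := by
    obtain ⟨s, hs⟩ := hS
    refine ⟨Pi.single s 1, ?_, ?_⟩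
    · intro v hv
      have : v ≠ s := fun h => hv (h ▸ hs)
      simp [this]
    · unfold sq
      rw [Finset.sum_eq_single s]
      · simp
      · intro b _ hb; simp [hb]
      · intro h; exact absurd hs h
  have hcont : Continuous fun f : V → ℝ => qf G S f := by
    unfold qf deg
    fun_prop
  obtain ⟨x, hxK, hx⟩ := hKc.exists_isMaxOn hKn hcont.continuousOn
  have hmax : ∀ f, qf G S f ≤ qf G S x * sq S f := by
    intro f
    by_cases h0 : sq S f = 0
    · have hz : ∀ v ∈ S, f v = 0 := by
        intro v hv
        have := (Finset.sum_eq_zero_iff_of_nonneg (fun v _ => sq_nonneg (f v))).1 h0 v hv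
        exact pow_eq_zero_iff (two_ne_zero) |>.1 this
      have : qf G S f = 0 := by
        unfold qf
        exact Finset.sum_eq_zero fun v hv => by rw [hz v hv, zero_mul]
      rw [this, h0, mul_zero]
    · have hpos : 0 < sq S f := lt_of_le_of_ne (sq_nonneg' S f) (Ne.symm h0)
      set c := (Real.sqrt (sq S f))⁻¹ with hc
      have hc2 : c ^ 2 * sq S f = 1 := by
        rw [hc, inv_pow, Real.sq_sqrt hpos.le]
        exact inv_mul_cancel₀ h0
      set g : V → ℝ := fun v => if v ∈ S then c * f v else 0 with hg
      have hgK : g ∈ K := by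
        refine ⟨fun v hv => by simp [hg, hv], ?_⟩
        rw [hg, sq_restrict (Finset.Subset.refl S), sq_smul, hc2]
      have h1 : qf G S g ≤ qf G S x := hx hgK
      rw [hg, qf_restrict G (Finset.Subset.refl S), qf_smul] at h1
      have h2 : qf G S f = (c ^ 2 * qf G S f) * sq S f := by
        have : (c ^ 2 * qf G S f) * sq S f = qf G S f * (c ^ 2 * sq S f) := by ring
        rw [this, hc2, mul_one]
      rw [h2]
      exact mul_le_mul_of_nonneg_right h1 hpos.le
  refine ⟨fun v => |x v|, fun v => abs_nonneg _, ?_, ?_⟩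
  · have : sq S (fun v => |x v|) = sq S x := by
      unfold sq; exact Finset.sum_congr rfl fun v _ => sq_abs _
    rw [this]; exact hxK.2
  · intro f
    have : qf G S x ≤ qf G S fun v => |x v| := by
      rw [qf_eq, qf_eq]
      refine Finset.sum_le_sum fun u _ => Finset.sum_le_sum fun v _ => ?_
      have h1 : x u * x v ≤ |x u| * |x v| := by rw [← abs_mul]; exact le_abs_self _
      calc W G u v * x u * x v = W G u v * (x u * x v) := by ring
        _ ≤ W G u v * (|x u| * |x v|) := mul_le_mul_of_nonneg_left h1 (W_nonneg G u v)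
        _ = _ := by ring
    exact (hmax f).trans (mul_le_mul_of_nonneg_right this (sq_nonneg' S f))

/-- bilinear form -/
noncomputable def bf (G : SimpleGraph V) (S : Finset V) (f g : V → ℝ) : ℝ :=
  ∑ u ∈ S, f u * deg G g u S

theorem deg_add (G : SimpleGraph V) (f g : V → ℝ) (v : V) (S : Finset V) :
    deg G (fun u => f u + g u) v S = deg G f v S + deg G g v S := by
  unfold deg
  rw [← Finset.sum_add_distrib]
  exact Finset.sum_congr rfl fun u _ => by ring

theorem deg_smul (G : SimpleGraph V) (c : ℝ) (f : V → ℝ) (v : V) (S : Finset V) :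
    deg G (fun u => c * f u) v S = c * deg G f v S := by
  unfold deg
  rw [Finset.mul_sum]
  exact Finset.sum_congr rfl fun u _ => by ring

theorem bf_symm (G : SimpleGraph V) (S : Finset V) (f g : V → ℝ) :
    bf G S f g = bf G S g f := by
  unfold bf deg
  simp_rw [Finset.mul_sum]
  rw [Finset.sum_comm]
  exact Finset.sum_congr rfl fun u _ => Finset.sum_congr rfl fun v _ => by
    rw [W_symm G v u]; ring

theorem qf_add (G : SimpleGraph V) (S : Finset V) (f g : V → ℝ) :
    qf G S (fun u => f u + g u) = qf G S f + 2 * bf G S f g + qf G S g := by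
  have h : bf G S g f = bf G S f g := bf_symm G S g f
  have h2 : qf G S (fun u => f u + g u) = qf G S f + bf G S f g + (bf G S g f + qf G S g) := by
    unfold qf bf
    simp_rw [deg_add]
    rw [← Finset.sum_add_distrib, ← Finset.sum_add_distrib, ← Finset.sum_add_distrib]
    exact Finset.sum_congr rfl fun u _ => by ring
  rw [h2, h]; ring

theorem eigen_of_max (G : SimpleGraph V) {S : Finset V} {x : V → ℝ} (h1 : sq S x = 1)
    (hmax : ∀ f, qf G S f ≤ qf G S x * sq S f) {v : V} (hv : v ∈ S) :
    deg G x v S = qf G S x * x v := by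
  classical
  have hq : ∀ t : ℝ, qf G S (fun u => x u + t * (if u = v then 1 else 0)) =
      qf G S x + 2 * t * deg G x v S := by
    intro t
    rw [qf_add]
    have e1 : bf G S x (fun u => t * (if u = v then (1 : ℝ) else 0)) = t * deg G x v S := by
      rw [bf_symm]
      unfold bf
      rw [Finset.sum_eq_single v]
      · simp
      · intro b _ hb; simp [hb]
      · intro h; exact absurd hv h
    have e2 : qf G S (fun u => t * (if u = v then (1 : ℝ) else 0)) = 0 := by
      rw [qf_eq]
      refine Finset.sum_eq_zero fun a _ => Finset.sum_eq_zero fun b _ => ?_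
      by_cases ha : a = v
      · by_cases hb : b = v
        · rw [ha, hb, W_self]; ring
        · simp [hb]
      · simp [ha]
    rw [e1, e2]; ring
  have hs : ∀ t : ℝ, sq S (fun u => x u + t * (if u = v then 1 else 0)) =
      1 + 2 * t * x v + t ^ 2 := by
    intro t
    have : sq S (fun u => x u + t * (if u = v then 1 else 0)) =
        sq S x + ∑ u ∈ S, (if u = v then (2 * t * x v + t ^ 2) else 0) := by
      unfold sq
      rw [← Finset.sum_add_distrib]
      refine Finset.sum_congr rfl fun u _ => ?_
      by_cases hu : u = v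
      · subst hu; simp; ring
      · simp [hu]
    rw [this, h1, Finset.sum_ite_eq' S v, if_pos hv]
    ring
  set l := qf G S x with hl
  set d := deg G x v S with hd
  have key : ∀ t : ℝ, 0 ≤ l * (t * t) + (2 * (l * x v - d)) * t + 0 := by
    intro t
    have := hmax (fun u => x u + t * (if u = v then 1 else 0))
    rw [hq, hs] at this
    nlinarith
  have hdisc := discrim_le_zero key
  unfold discrim at hdisc
  nlinarith [sq_nonneg (l * x v - d)]

/-- The shifted positive semidefinite form seen by functions supported on `S`. -/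
theorem psd_shift (G : SimpleGraph V) {S : Finset V} {x : V → ℝ} {l μ : ℝ}
    (hx1 : sq S x = 1) (hxe : ∀ v ∈ S, deg G x v S = l * x v)
    (hpsd : ∀ f, -μ * sq S f ≤ qf G S f) (f : V → ℝ) :
    (l + μ) * (∑ u ∈ S, x u * f u) ^ 2 - μ * sq S f ≤ qf G S f := by
  set c := ∑ u ∈ S, x u * f u with hc
  have h := hpsd (fun u => f u + (-c) * x u)
  have hlx : qf G S x = l := by
    unfold qf
    rw [Finset.sum_congr rfl fun v hv => by rw [hxe v hv]]
    have : ∑ u ∈ S, x u * (l * x u) = l * sq S x := by
      unfold sq; rw [Finset.mul_sum]; exact Finset.sum_congr rfl fun u _ => by ring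
    rw [this, hx1, mul_one]
  have e1 : bf G S f (fun u => (-c) * x u) = -(l * c ^ 2) := by
    unfold bf
    rw [Finset.sum_congr rfl fun v hv => by rw [deg_smul, hxe v hv]]
    have : ∑ u ∈ S, f u * (-c * (l * x u)) = -c * l * ∑ u ∈ S, x u * f u := by
      rw [Finset.mul_sum]; exact Finset.sum_congr rfl fun u _ => by ring
    rw [this, ← hc]; ring
  have e2 : sq S (fun u => f u + (-c) * x u) = sq S f - c ^ 2 := by
    have : ∀ k : ℝ, sq S (fun u => f u + (-k) * x u) =
        sq S f - 2 * k * (∑ u ∈ S, x u * f u) + k ^ 2 * sq S x := by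
      intro k
      unfold sq
      rw [Finset.mul_sum, Finset.mul_sum, ← Finset.sum_sub_distrib, ← Finset.sum_add_distrib]
      exact Finset.sum_congr rfl fun u _ => by ring
    rw [this c, ← hc, hx1]; ring
  rw [qf_add, e1, qf_smul, hlx, e2] at h
  nlinarith

theorem psd_restrict (G : SimpleGraph V) {μ : ℝ}
    (hpsd : ∀ f, -μ * sq univ f ≤ qf G univ f) (S : Finset V) (f : V → ℝ) :
    -μ * sq S f ≤ qf G S f := by
  have := hpsd (fun v => if v ∈ S then f v else 0)
  rwa [qf_restrict G (Finset.subset_univ S), sq_restrict (Finset.subset_univ S)] at this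

end Pool.Agent.Work.MP_f94384_co
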