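import Pool.Agent.Work.MP_f94384_co.Theta

/-!
The budget inequality obtained from all class tests, and the bound coming from the chain
inequality.
-/

open Finset

set_option linter.unusedSectionVars false
set_option linter.unusedDecidableInType false
set_option linter.unusedFintypeInType false

namespace Pool.Agent.Work.MP_f94384_co

/-- pure algebra of the budget inequality -/
theorem budget_algebra {N r l μ w2 Ω T E G B B2 y : ℝ} (hr : 1 ≤ r) (hN : 0 ≤ N)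
    (h1 : (l + μ) * (1 - B) ^ 2 - r * (μ * (1 - 2 * B + B2)) ≤ r * (E - G))
    (h2 : (1 - 1 / r) * w2 = l + Ω + 2 * T + E) (h3 : w2 ≤ N) (h4 : l + μ = (1 - y) * N)
    (h5 : 2 * μ ≤ (2 / r - y) * N) (hB : 0 ≤ B) (hy0 : 0 ≤ y) (hy1 : y ≤ 1)
    (hB2 : 0 ≤ 1 - 2 * B + B2) :
    G + 2 * T + Ω ≤ y * N / r + y * N * B + (1 / r - y / 2) * N * B2 := by
  have hr0 : 0 < r := by linarith
  have hl : l = (1 - y) * N - μ := by linarith
  have h2' : (r - 1) * w2 = r * (l + Ω + 2 * T + E) := by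
    rw [← h2]; field_simp
  have h3' : (r - 1) * w2 ≤ (r - 1) * N := mul_le_mul_of_nonneg_left h3 (by linarith)
  have h6 : r * μ * (2 - 2 * B + B2) ≤ (1 - r * y / 2) * N * (2 - 2 * B + B2) := by
    refine mul_le_mul_of_nonneg_right ?_ (by linarith)
    have h7 := mul_le_mul_of_nonneg_left h5 hr0.le
    have h8 : r * ((2 / r - y) * N) = 2 * ((1 - r * y / 2) * N) := by field_simp
    rw [h8] at h7
    linarith
  have h7 : r * (G + 2 * T + Ω) ≤ (r - 1) * N - r * l - (l + μ) * (1 - B) ^ 2 +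
      r * μ * (1 - 2 * B + B2) := by nlinarith
  have h8 : (r - 1) * N - r * l - (l + μ) * (1 - B) ^ 2 + r * μ * (1 - 2 * B + B2) =
      (r - 1) * N - r * ((1 - y) * N) - (1 - y) * N * (1 - B) ^ 2 + r * μ * (2 - 2 * B + B2) := by
    rw [h4, hl]; ring
  have h9 : (r - 1) * N - r * ((1 - y) * N) - (1 - y) * N * (1 - B) ^ 2 +
      (1 - r * y / 2) * N * (2 - 2 * B + B2) =
      N * (y + r * y * B + (1 - r * y / 2) * B2) - N * (2 * y * B + (1 - y) * B ^ 2) := by ring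
  have h10 : 0 ≤ N * (2 * y * B + (1 - y) * B ^ 2) :=
    mul_nonneg hN (by nlinarith [mul_nonneg hy0 hB, mul_nonneg (sub_nonneg.2 hy1) (sq_nonneg B)])
  have h11 : r * (G + 2 * T + Ω) ≤ N * (y + r * y * B + (1 - r * y / 2) * B2) := by linarith
  have h12 : r * (y * N / r + y * N * B + (1 / r - y / 2) * N * B2) =
      N * (y + r * y * B + (1 - r * y / 2) * B2) := by field_simp
  rw [← h12] at h11
  exact le_of_mul_le_mul_left h11 hr0

variable {V : Type*} [Fintype V] [DecidableEq V]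

/-- The budget inequality. -/
theorem budget {G : SimpleGraph V} {x : V → ℝ} {l μ y : ℝ} {r : ℕ} (hx : ∀ v, 0 ≤ x v)
    (hr : 0 < r) (hG : G.CliqueFree (r + 1)) (hx1 : sq univ x = 1)
    (hxe : ∀ v, deg G x v univ = l * x v) (hpsd : ∀ f, -μ * sq univ f ≤ qf G univ f)
    (hl : 0 < l) (hμ : 0 ≤ μ)
    (h4 : l + μ = (1 - y) * (Fintype.card V : ℝ))
    (h5 : 2 * μ ≤ (2 / (r : ℝ) - y) * (Fintype.card V : ℝ)) (hy0 : 0 ≤ y) (hy1 : y ≤ 1)
    {ϑ : ℕ → ℝ} (hϑ0 : ∀ j, 0 ≤ ϑ j) (hϑ1 : ∀ j, ϑ j ≤ 1) {κ M : ℝ} (hκ : 0 ≤ κ) (hM : 0 ≤ M)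
    (hϑM : ∀ j < r, ϑ j * Eq G x j ≤ M ^ 2) (hyr : 0 ≤ 1 / (r : ℝ) - y / 2) :
    (2 * κ - κ ^ 2 * M) * ∑ j ∈ Finset.Ico 0 r, ϑ j * Hq G x j +
      2 * ∑ j ∈ Finset.Ico 0 r, Tq G x j +
      ∑ j ∈ Finset.Ico 0 r, (aq G x j - wt x univ / r) ^ 2 ≤
    y * (Fintype.card V : ℝ) / r +
      y * (Fintype.card V : ℝ) * (κ * (wt x univ / l) * ∑ j ∈ Finset.Ico 0 r, ϑ j * Eq G x j) +
      (1 / (r : ℝ) - y / 2) * (Fintype.card V : ℝ) *
        (κ ^ 2 * (wt x univ / l) * ∑ j ∈ Finset.Ico 0 r, ϑ j * Hq G x j) := by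
  set N := (Fintype.card V : ℝ) with hN
  set w := wt x univ with hw
  set X := w / l with hX
  have hxX : ∀ v, x v ≤ X := by
    intro v
    rw [hX, le_div_iff₀ hl]
    have := deg_le_wt G hx v univ
    rw [hxe v] at this
    linarith
  have hX0 : 0 ≤ X := div_nonneg (wt_nonneg hx _) hl.le
  set β : ℕ → V → ℝ := fun j u => ϑ j * κ * inn G x j u with hβ
  have htest := sum_test G hr hG (by linarith : 0 ≤ l + μ) hx1 hxe hpsd β
  set B := ∑ j ∈ Finset.Ico 0 r, ∑ u ∈ Cq G x j, x u ^ 2 * β j u with hB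
  set B2 := ∑ j ∈ Finset.Ico 0 r, ∑ u ∈ Cq G x j, x u ^ 2 * β j u ^ 2 with hB2
  set GG := ∑ j ∈ Finset.Ico 0 r, (2 * ∑ u ∈ Cq G x j, x u * β j u * inn G x j u -
          qf G (Cq G x j) (fun u => x u * β j u)) with hGG
  set HH := ∑ j ∈ Finset.Ico 0 r, ϑ j * Hq G x j with hHH
  set EE := ∑ j ∈ Finset.Ico 0 r, ϑ j * Eq G x j with hEE
  have hβ0 : ∀ j u, 0 ≤ β j u := fun j u =>
    mul_nonneg (mul_nonneg (hϑ0 j) hκ) (inn_nonneg G hx j u)
  have hB0 : 0 ≤ B := Finset.sum_nonneg fun j _ => Finset.sum_nonneg fun u _ =>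
    mul_nonneg (sq_nonneg _) (hβ0 j u)
  have hBle : B ≤ κ * X * EE := by
    rw [hEE, Finset.mul_sum]
    refine Finset.sum_le_sum fun j _ => ?_
    unfold Eq qf
    have : κ * X * (ϑ j * ∑ u ∈ Cq G x j, x u * deg G x u (Cq G x j)) =
        ∑ u ∈ Cq G x j, X * (ϑ j * κ * (x u * inn G x j u)) := by
      rw [Finset.mul_sum, Finset.mul_sum]
      exact Finset.sum_congr rfl fun u _ => by unfold inn; ring
    rw [this]
    refine Finset.sum_le_sum fun u _ => ?_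
    have h1 : x u ^ 2 * β j u = x u * (ϑ j * κ * (x u * inn G x j u)) := by
      simp only [hβ]; ring
    rw [h1]
    exact mul_le_mul_of_nonneg_right (hxX u)
      (mul_nonneg (mul_nonneg (hϑ0 j) hκ) (mul_nonneg (hx u) (inn_nonneg G hx j u)))
  have hB2le : B2 ≤ κ ^ 2 * X * HH := by
    rw [hHH, Finset.mul_sum]
    refine Finset.sum_le_sum fun j _ => ?_
    unfold Hq
    have : κ ^ 2 * X * (ϑ j * ∑ u ∈ Cq G x j, x u * inn G x j u ^ 2) =
        ∑ u ∈ Cq G x j, X * (ϑ j * (κ ^ 2 * (x u * inn G x j u ^ 2))) := by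
      rw [Finset.mul_sum, Finset.mul_sum]
      exact Finset.sum_congr rfl fun u _ => by ring
    rw [this]
    refine Finset.sum_le_sum fun u _ => ?_
    have h1 : x u ^ 2 * β j u ^ 2 =
        x u * (ϑ j * (ϑ j * (κ ^ 2 * (x u * inn G x j u ^ 2)))) := by
      simp only [hβ]; ring
    rw [h1]
    have h2 : 0 ≤ κ ^ 2 * (x u * inn G x j u ^ 2) :=
      mul_nonneg (sq_nonneg _) (mul_nonneg (hx u) (sq_nonneg _))
    have h3 : ϑ j * (ϑ j * (κ ^ 2 * (x u * inn G x j u ^ 2))) ≤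
        ϑ j * (κ ^ 2 * (x u * inn G x j u ^ 2)) := by
      have := mul_le_mul_of_nonneg_right (hϑ1 j) h2
      rw [one_mul] at this
      exact mul_le_mul_of_nonneg_left this (hϑ0 j)
    exact mul_le_mul (hxX u) h3 (mul_nonneg (hϑ0 j) (mul_nonneg (hϑ0 j) h2)) hX0
  have hGle : (2 * κ - κ ^ 2 * M) * HH ≤ GG := by
    rw [hHH, Finset.mul_sum]
    refine Finset.sum_le_sum fun j hj => ?_
    have hjr : j < r := (Finset.mem_Ico.1 hj).2
    have e1 : ∑ u ∈ Cq G x j, x u * β j u * inn G x j u = ϑ j * κ * Hq G x j := by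
      unfold Hq
      rw [Finset.mul_sum]
      exact Finset.sum_congr rfl fun u _ => by simp only [hβ]; ring
    have e2 : qf G (Cq G x j) (fun u => x u * β j u) =
        (ϑ j * κ) ^ 2 * qf G (Cq G x j) (fun u => x u * inn G x j u) := by
      rw [← qf_smul]
      exact qf_congr G fun u _ => by simp only [hβ]; ring
    set q := qf G (Cq G x j) (fun u => x u * inn G x j u) with hq
    have e3 : q ^ 2 ≤ Eq G x j * Hq G x j ^ 2 := qf_mul_sq_le G hx (Cq G x j) _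
    have hH0 := Hq_nonneg G hx j
    have hE0 := Eq_nonneg G hx j
    have e4 : ϑ j ^ 2 * q ≤ ϑ j * M * Hq G x j := by
      have h1 : (ϑ j ^ 2 * q) ^ 2 ≤ (ϑ j * M * Hq G x j) ^ 2 := by
        calc (ϑ j ^ 2 * q) ^ 2 = ϑ j ^ 4 * q ^ 2 := by ring
          _ ≤ ϑ j ^ 4 * (Eq G x j * Hq G x j ^ 2) :=
            mul_le_mul_of_nonneg_left e3 (pow_nonneg (hϑ0 j) 4)
          _ = ϑ j * (ϑ j ^ 2 * (ϑ j * Eq G x j) * Hq G x j ^ 2) := by ring
          _ ≤ 1 * (ϑ j ^ 2 * (ϑ j * Eq G x j) * Hq G x j ^ 2) :=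
            mul_le_mul_of_nonneg_right (hϑ1 j)
              (mul_nonneg (mul_nonneg (sq_nonneg _) (mul_nonneg (hϑ0 j) hE0)) (sq_nonneg _))
          _ = ϑ j ^ 2 * Hq G x j ^ 2 * (ϑ j * Eq G x j) := by ring
          _ ≤ ϑ j ^ 2 * Hq G x j ^ 2 * M ^ 2 :=
            mul_le_mul_of_nonneg_left (hϑM j hjr) (mul_nonneg (sq_nonneg _) (sq_nonneg _))
          _ = _ := by ring
      exact (abs_le_of_sq_le_sq' h1 (mul_nonneg (mul_nonneg (hϑ0 j) hM) hH0)).2
    rw [e1, e2]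
    nlinarith [mul_le_mul_of_nonneg_left e4 (sq_nonneg κ)]
  have hone : 0 ≤ 1 - 2 * B + B2 := by
    have hs : ∑ j ∈ Finset.Ico 0 r, ∑ u ∈ Cq G x j, x u ^ 2 = 1 := by
      have := sum_Vq x hG (fun v => x v ^ 2) (Nat.zero_le r)
      rw [← hx1]
      exact this.symm
    have : 1 - 2 * B + B2 = ∑ j ∈ Finset.Ico 0 r, ∑ u ∈ Cq G x j, x u ^ 2 * (1 - β j u) ^ 2 := by
      have e0 : 1 - 2 * B + B2 = ∑ j ∈ Finset.Ico 0 r, ∑ u ∈ Cq G x j, x u ^ 2 - 2 * B + B2 := by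
        rw [hs]
      rw [e0, hB, hB2, Finset.mul_sum, ← Finset.sum_sub_distrib, ← Finset.sum_add_distrib]
      refine Finset.sum_congr rfl fun j _ => ?_
      rw [Finset.mul_sum, ← Finset.sum_sub_distrib, ← Finset.sum_add_distrib]
      exact Finset.sum_congr rfl fun u _ => by ring
    rw [this]
    exact Finset.sum_nonneg fun j _ => Finset.sum_nonneg fun u _ =>
      mul_nonneg (sq_nonneg _) (sq_nonneg _)
  have hdef := defect_identity G hr hG hx1 hxe
  have hN0 : 0 ≤ N := Nat.cast_nonneg _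
  have hwN : w ^ 2 ≤ N := by
    have h1 := sq_sum_le_card_mul_sum_sq (s := (univ : Finset V)) (f := x)
    have h2 : ∑ v, x v ^ 2 = 1 := hx1
    rw [h2, mul_one] at h1
    exact h1
  have hr1 : (1 : ℝ) ≤ r := by exact_mod_cast hr
  have hmain := budget_algebra hr1 hN0 htest hdef hwN h4 h5 hB0 hy0 hy1 hone
  have f1 : y * N * B ≤ y * N * (κ * X * EE) :=
    mul_le_mul_of_nonneg_left hBle (mul_nonneg hy0 hN0)
  have f2 : (1 / (r : ℝ) - y / 2) * N * B2 ≤ (1 / (r : ℝ) - y / 2) * N * (κ ^ 2 * X * HH) :=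
    mul_le_mul_of_nonneg_left hB2le (mul_nonneg hyr hN0)
  linarith

theorem P_geom {t : ℝ} (k : ℕ) : P t k * (t - 1) = t ^ k - 1 := by
  induction k with
  | zero => simp [P]
  | succ k ih => rw [P_succ, pow_succ]; linear_combination t * ih

/-- consequence of the chain inequality for the whole graph -/
theorem sigma_le {G : SimpleGraph V} {x : V → ℝ} {l μ : ℝ} {r : ℕ} (hr : 1 ≤ r)
    (hμ : 0 ≤ μ) (hσ : 0 < l + μ) (hG : G.CliqueFree (r + 1)) (hx1 : sq univ x = 1)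
    (hl : qf G univ x = l) (hpsd : ∀ f, -μ * sq univ f ≤ qf G univ f) :
    l + μ ≤ μ * P ((Fintype.card V : ℝ) / (l + μ)) r := by
  set N := (Fintype.card V : ℝ) with hN
  have hN0 : 0 ≤ N := Nat.cast_nonneg _
  have ht : 0 ≤ N / (l + μ) := div_nonneg hN0 hσ.le
  have h := chain_univ hr ht hμ hG hx1 hl hpsd
  set t := N / (l + μ) with htd
  have h1 : t * (l + μ) = N := by rw [htd]; field_simp
  rw [dP_succ] at h
  have h2 : P t r * (l + μ) ≤ μ * P t r ^ 2 := by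
    have : (P t r + t * dP t r) * (l + μ) = P t r * (l + μ) + dP t r * N := by rw [← h1]; ring
    rw [this] at h
    linarith
  obtain ⟨j, rfl⟩ : ∃ j, r = j + 1 := ⟨r - 1, by omega⟩
  have h3 := P_one_le ht j
  have h4 : 0 < P t (j + 1) := by linarith
  have h5 : (l + μ) * P t (j + 1) ≤ (μ * P t (j + 1)) * P t (j + 1) := by nlinarith
  exact le_of_mul_le_mul_right h5 h4

theorem log_upper {y : ℝ} (hy0 : 0 ≤ y) (hy1 : y < 1) :
    Real.log (1 / (1 - y)) ≤ y + y ^ 2 / (2 * (1 - y)) := by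
  have h1 : (0:ℝ) < 1 - y := by linarith
  have h2 : (0:ℝ) < 1 / (1 - y) := by positivity
  have h3 : 0 ≤ Real.log (1 / (1 - y)) := Real.log_nonneg (by rw [le_div_iff₀ h1]; linarith)
  have h4 := Real.self_le_sinh_iff.2 h3
  rw [Real.sinh_log h2] at h4
  refine h4.trans (le_of_eq ?_)
  field_simp
  ring

theorem log_lower {q : ℝ} (hq0 : 0 ≤ q) (hq1 : q < 1) :
    2 * q + 2 * q ^ 3 / 3 ≤ Real.log ((1 + q) / (1 - q)) := by
  have h := Real.hasSum_log_sub_log_of_abs_lt_one (x := q) (by rw [abs_of_nonneg hq0]; exact hq1)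
  have h1 := sum_le_hasSum (Finset.range 2) (fun i _ => by positivity) h
  rw [Real.log_div (by linarith) (by linarith)]
  refine le_trans (le_of_eq ?_) h1
  simp [Finset.sum_range_succ]
  ring

/-- the bound on `Y = r y` -/
theorem Y_bound {r : ℕ} (hr : 2 ≤ r) {N σ μ y : ℝ} (hN : 0 < N) (hy0 : 0 < y)
    (hσ : σ = (1 - y) * N) (h5 : 2 * μ < (2 / (r : ℝ) - y) * N) (hμ : 0 ≤ μ)
    (h : σ ≤ μ * P (N / σ) r) :
    (r : ℝ) * y * (r - r * y) < 6 ∧ (r : ℝ) * y < 2 := by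
  have hr0 : (0 : ℝ) < r := by positivity
  have hr2 : (2 : ℝ) ≤ r := by exact_mod_cast hr
  have hY2 : (r : ℝ) * y < 2 := by
    have h1 : 0 < (2 / (r : ℝ) - y) * N := by linarith
    have h2 : 0 < 2 / (r : ℝ) - y := by
      by_contra hcon
      have : (2 / (r : ℝ) - y) * N ≤ 0 := mul_nonpos_of_nonpos_of_nonneg (not_lt.1 hcon) hN.le
      linarith
    have h3 : y < 2 / r := by linarith
    rw [lt_div_iff₀ hr0] at h3
    linarith
  have hy1 : y < 1 := by nlinarith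
  have h1y : 0 < 1 - y := by linarith
  have hσ0 : 0 < σ := by rw [hσ]; positivity
  set t := N / σ with ht
  have ht' : t = 1 / (1 - y) := by rw [ht, hσ]; field_simp
  have ht1 : 1 < t := by rw [ht', lt_div_iff₀ h1y]; linarith
  have hgeom := P_geom (t := t) r
  have htr : 1 < t ^ r := one_lt_pow₀ ht1 (by omega)
  -- `y < (1/r - y/2)(t^r - 1)`
  have k1 : σ * (t - 1) = y * N := by
    rw [hσ, ht']; field_simp; ring
  have k2 : y * N ≤ μ * (t ^ r - 1) := by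
    rw [← k1, ← hgeom]
    have := mul_le_mul_of_nonneg_right h (by linarith : 0 ≤ t - 1)
    linarith
  have k3 : μ * (t ^ r - 1) < ((1 / (r : ℝ) - y / 2) * N) * (t ^ r - 1) := by
    refine mul_lt_mul_of_pos_right ?_ (by linarith)
    have : (2 / (r : ℝ) - y) * N = 2 * ((1 / (r : ℝ) - y / 2) * N) := by ring
    linarith
  have k4 : y < (1 / (r : ℝ) - y / 2) * (t ^ r - 1) := by
    have : y * N < ((1 / (r : ℝ) - y / 2) * (t ^ r - 1)) * N := by linarith
    exact lt_of_mul_lt_mul_right this hN.le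
  set q := r * y / 2 with hq
  have hq0 : 0 < q := by positivity
  have hq1 : q < 1 := by rw [hq]; linarith
  have k5 : (1 + q) / (1 - q) < t ^ r := by
    rw [div_lt_iff₀ (by linarith)]
    have h6 := mul_lt_mul_of_pos_left k4 hr0
    have h7 : (r : ℝ) * ((1 / (r : ℝ) - y / 2) * (t ^ r - 1)) = (1 - q) * (t ^ r - 1) := by
      rw [hq]; field_simp
    rw [h7] at h6
    have h8 : (r : ℝ) * y = 2 * q := by rw [hq]; ring
    rw [h8] at h6
    linarith
  have k6 : Real.log ((1 + q) / (1 - q)) < r * Real.log t := by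
    rw [← Real.log_pow]
    exact Real.log_lt_log (div_pos (by linarith) (by linarith)) k5
  have k7 := log_lower hq0.le hq1
  have k8 : Real.log t ≤ y + y ^ 2 / (2 * (1 - y)) := by rw [ht']; exact log_upper hy0.le hy1
  have k9 : 2 * q + 2 * q ^ 3 / 3 < r * (y + y ^ 2 / (2 * (1 - y))) :=
    lt_of_le_of_lt k7 (lt_of_lt_of_le k6 (mul_le_mul_of_nonneg_left k8 hr0.le))
  refine ⟨?_, hY2⟩
  have k10 : 2 * q ^ 3 / 3 < r * (y ^ 2 / (2 * (1 - y))) := by
    have : 2 * q = r * y := by rw [hq]; ring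
    rw [this] at k9
    linarith
  rw [hq] at k10
  have k11 : 2 * (r * y / 2) ^ 3 / 3 * (2 * (1 - y)) < r * y ^ 2 := by
    have := mul_lt_mul_of_pos_right k10 (by linarith : 0 < 2 * (1 - y))
    have e : r * (y ^ 2 / (2 * (1 - y))) * (2 * (1 - y)) = r * y ^ 2 := by field_simp
    rwa [e] at this
  have k12 : (r * y * (r - r * y)) * (r * y ^ 2) < 6 * (r * y ^ 2) := by nlinarith
  exact lt_of_mul_lt_mul_right k12 (by positivity)

end Pool.Agent.Work.MP_f94384_co
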