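import Pool.Agent.Work.MP_f94384_co.Base

/-!
The chain inequality: for a graph without `K_{j+2}` on `S` and smallest eigenvalue at least
`-μ`, the top eigenvalue on `S` is bounded through the polynomials `P` and their derivatives.
-/

open Finset

set_option linter.unusedSectionVars false
set_option linter.unusedDecidableInType false
set_option linter.unusedFintypeInType false

namespace Pool.Agent.Work.MP_f94384_co

variable {V : Type*} [Fintype V] [DecidableEq V]

/-- `P t k = 1 + t + ⋯ + t^(k-1)` -/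
def P (t : ℝ) : ℕ → ℝ
  | 0 => 0
  | k + 1 => 1 + t * P t k

/-- the derivative of `P` in `t` -/
def dP (t : ℝ) : ℕ → ℝ
  | 0 => 0
  | k + 1 => P t k + t * dP t k

theorem P_zero (t : ℝ) : P t 0 = 0 := rfl
theorem P_succ (t : ℝ) (k : ℕ) : P t (k + 1) = 1 + t * P t k := rfl
theorem dP_zero (t : ℝ) : dP t 0 = 0 := rfl
theorem dP_succ (t : ℝ) (k : ℕ) : dP t (k + 1) = P t k + t * dP t k := rfl

theorem P_nonneg {t : ℝ} (ht : 0 ≤ t) (k : ℕ) : 0 ≤ P t k := by
  induction k with
  | zero => simp [P]
  | succ k ih => rw [P_succ]; positivity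

theorem P_one_le {t : ℝ} (ht : 0 ≤ t) (k : ℕ) : 1 ≤ P t (k + 1) := by
  have := P_nonneg ht k
  rw [P_succ]; nlinarith [mul_nonneg ht this]

theorem dP_nonneg {t : ℝ} (ht : 0 ≤ t) (k : ℕ) : 0 ≤ dP t k := by
  induction k with
  | zero => simp [dP]
  | succ k ih =>
    have := P_nonneg ht k
    rw [dP_succ]; positivity

theorem P_mono {t : ℝ} (ht : 0 ≤ t) (k : ℕ) : P t k ≤ P t (k + 1) := by
  induction k with
  | zero => simp [P]
  | succ k ih =>
    rw [P_succ, P_succ t (k+1)]
    nlinarith [mul_le_mul_of_nonneg_left ih ht]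

theorem dP_le {t : ℝ} (ht : 0 ≤ t) (k : ℕ) : dP t k ≤ P t k ^ 2 := by
  induction k with
  | zero => simp [P, dP]
  | succ k ih =>
    have h1 := P_nonneg ht k
    have h2 := P_mono ht k
    have h3 : dP t (k + 1) ≤ P t k * P t (k + 1) := by
      rw [dP_succ, P_succ]
      nlinarith [mul_le_mul_of_nonneg_left ih ht]
    have h4 := P_nonneg ht (k + 1)
    nlinarith

/-- the algebraic step -/
theorem step_algebra {t a a' l μ d : ℝ} (ht : 0 ≤ t) (ha : 1 ≤ a) (ha' : 0 ≤ a')
    (haa : a' ≤ a ^ 2) (hl : 0 ≤ l) (hμ : 0 ≤ μ) (hd : 0 ≤ d)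
    (h : (a + t * a') * (l + μ) * l ≤ d * (a' * l + μ * a ^ 2)) :
    ((1 + t * a) + t * (a + t * a')) * (l + μ) ≤ (a + t * a') * d + μ * (1 + t * a) ^ 2 := by
  have hb : 0 < a + t * a' := by positivity
  rcases (show 0 ≤ a' * l + μ * a ^ 2 by positivity).eq_or_lt with h0 | h0
  · have e1 : μ * a ^ 2 = 0 := by
      have p1 : 0 ≤ a' * l := by positivity
      have p2 : 0 ≤ μ * a ^ 2 := by positivity
      linarith
    have hμ0 : μ = 0 := by
      rcases mul_eq_zero.1 e1 with h | h
      · exact h
      · exfalso; have : 0 < a ^ 2 := by positivity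
        linarith
    subst hμ0
    rw [← h0] at h
    have hl0 : l = 0 := by
      by_contra hne
      have hlp : 0 < l := lt_of_le_of_ne hl (Ne.symm hne)
      have : 0 < (a + t * a') * (l + 0) * l := by
        rw [add_zero]; positivity
      linarith
    subst hl0
    have : 0 ≤ (a + t * a') * d := by positivity
    linarith
  · have key : (((1 + t * a) + t * (a + t * a')) * (l + μ) - μ * (1 + t * a) ^ 2) *
        (a' * l + μ * a ^ 2) ≤ ((a + t * a') * d) * (a' * l + μ * a ^ 2) := by
      have h1 : (a + t * a') ^ 2 * (l + μ) * l ≤ (a + t * a') * d * (a' * l + μ * a ^ 2) := by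
        have := mul_le_mul_of_nonneg_left h hb.le
        nlinarith
      have h2 : (a + t * a') ^ 2 * (l + μ) * l -
          (((1 + t * a) + t * (a + t * a')) * (l + μ) - μ * (1 + t * a) ^ 2) *
            (a' * l + μ * a ^ 2) = (a ^ 2 - a') * (l - t * a * μ) ^ 2 := by ring
      have h3 : 0 ≤ (a ^ 2 - a') * (l - t * a * μ) ^ 2 :=
        mul_nonneg (by linarith) (sq_nonneg _)
      linarith
    have := le_of_mul_le_mul_right key h0
    linarith

/-- neighbourhood of `v` inside `S` -/
noncomputable def nb (G : SimpleGraph V) (S : Finset V) (v : V) : Finset V :=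
  open Classical in S.filter fun u => G.Adj v u

theorem mem_nb {G : SimpleGraph V} {S : Finset V} {v u : V} :
    u ∈ nb G S v ↔ u ∈ S ∧ G.Adj v u := by
  classical
  simp [nb]

theorem nb_subset (G : SimpleGraph V) (S : Finset V) (v : V) : nb G S v ⊆ S :=
  fun _ h => (mem_nb.1 h).1

theorem sum_nb (G : SimpleGraph V) (S : Finset V) (v : V) (g : V → ℝ) :
    ∑ u ∈ nb G S v, g u = ∑ u ∈ S, W G v u * g u := by
  classical
  rw [nb, Finset.sum_filter]
  refine Finset.sum_congr rfl fun u _ => ?_
  unfold W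
  split_ifs <;> simp

theorem cliqueFreeOn_nb {G : SimpleGraph V} {S : Finset V} {v : V} {k : ℕ} (hv : v ∈ S)
    (h : G.CliqueFreeOn (S : Set V) (k + 1)) : G.CliqueFreeOn (nb G S v : Set V) k := by
  intro t ht hk
  apply h (t := insert v t)
  · intro u hu
    rw [Finset.coe_insert, Set.mem_insert_iff] at hu
    rcases hu with rfl | hu
    · exact hv
    · exact (mem_nb.1 (ht hu)).1
  · exact hk.insert fun b hb => (mem_nb.1 (ht hb)).2

theorem chain {G : SimpleGraph V} {t μ : ℝ} (ht : 0 ≤ t) (hμ : 0 ≤ μ)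
    (hpsd : ∀ f, -μ * sq univ f ≤ qf G univ f) (j : ℕ) :
    ∀ S : Finset V, G.CliqueFreeOn (S : Set V) (j + 2) → ∀ f : V → ℝ,
      dP t (j + 2) * (qf G S f + μ * sq S f) ≤
        (dP t (j + 1) * (S.card : ℝ) + μ * P t (j + 1) ^ 2) * sq S f := by
  induction j with
  | zero =>
    intro S hS f
    have hno : ∀ u ∈ S, ∀ v ∈ S, W G u v = 0 := by
      intro u hu v hv
      apply W_of_not_adj
      intro huv
      apply hS (t := {u, v})
      · intro w hw
        simp only [Finset.coe_insert, Finset.coe_singleton, Set.mem_insert_iff,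
          Set.mem_singleton_iff] at hw
        rcases hw with rfl | rfl
        · exact hu
        · exact hv
      · rw [SimpleGraph.isNClique_iff]
        refine ⟨?_, Finset.card_pair huv.ne⟩
        rw [Finset.coe_pair, SimpleGraph.isClique_iff, Set.pairwise_pair]
        exact fun _ => ⟨huv, huv.symm⟩
    have hq : qf G S f = 0 := by
      rw [qf_eq]
      exact Finset.sum_eq_zero fun u hu => Finset.sum_eq_zero fun v hv => by
        rw [hno u hu v hv]; ring
    rw [hq]
    simp [P, dP]
  | succ j ih =>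
    intro S hS f
    rcases S.eq_empty_or_nonempty with rfl | hne
    · simp [qf, sq]
    obtain ⟨x, hx0, hx1, hxmax⟩ := exists_max G hne
    set l := qf G S x with hl
    have hxe : ∀ v ∈ S, deg G x v S = l * x v := fun v hv => eigen_of_max G hx1 hxmax hv
    have hl0 : 0 ≤ l := by
      rw [hl, qf_eq]
      exact Finset.sum_nonneg fun u _ => Finset.sum_nonneg fun v _ =>
        mul_nonneg (mul_nonneg (W_nonneg G u v) (hx0 u)) (hx0 v)
    -- it suffices to bound `l`
    suffices hmain : dP t (j + 3) * (l + μ) ≤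
        dP t (j + 2) * (S.card : ℝ) + μ * P t (j + 2) ^ 2 by
      have h1 := hxmax f
      have h2 := dP_nonneg ht (j + 3)
      have h3 := sq_nonneg' S f
      calc dP t (j + 3) * (qf G S f + μ * sq S f)
          ≤ dP t (j + 3) * (l * sq S f + μ * sq S f) :=
            mul_le_mul_of_nonneg_left (by linarith) h2
        _ = (dP t (j + 3) * (l + μ)) * sq S f := by ring
        _ ≤ _ := mul_le_mul_of_nonneg_right hmain h3
    have hpsdS : ∀ f, -μ * sq S f ≤ qf G S f := psd_restrict G hpsd S
    -- the inequality at a vertex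
    have hvert : ∀ v ∈ S, dP t (j + 2) * (l + μ) * sq (nb G S v) x ≤
        dP t (j + 1) * ((nb G S v).card : ℝ) + μ * P t (j + 1) ^ 2 := by
      intro v hv
      set N := nb G S v with hN
      have hNS : N ⊆ S := nb_subset G S v
      have i1 := ih N (cliqueFreeOn_nb hv hS) x
      have i2 := psd_shift G hx1 hxe hpsdS (fun u => if u ∈ N then x u else 0)
      rw [qf_restrict G hNS, sq_restrict hNS] at i2
      have i3 : ∑ u ∈ S, x u * (if u ∈ N then x u else 0) = sq N x := by
        unfold sq
        rw [← Finset.sum_subset hNS]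
        · exact Finset.sum_congr rfl fun u hu => by simp [hu]; ring
        · intro u _ hu; simp [hu]
      rw [i3] at i2
      set s := sq N x with hs
      have hs0 : 0 ≤ s := sq_nonneg' N x
      have hd2 := dP_nonneg ht (j + 2)
      have hd1 := dP_nonneg ht (j + 1)
      have hR : 0 ≤ dP t (j + 1) * (N.card : ℝ) + μ * P t (j + 1) ^ 2 := by positivity
      rcases hs0.eq_or_lt with h0 | h0
      · rw [← h0]; simpa using hR
      · have i4 : (dP t (j + 2) * (l + μ) * s) * s ≤
            (dP t (j + 1) * (N.card : ℝ) + μ * P t (j + 1) ^ 2) * s := by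
          calc (dP t (j + 2) * (l + μ) * s) * s = dP t (j + 2) * ((l + μ) * s ^ 2) := by ring
            _ ≤ dP t (j + 2) * (qf G N x + μ * s) :=
              mul_le_mul_of_nonneg_left (by linarith) hd2
            _ ≤ _ := i1
        exact le_of_mul_le_mul_right i4 h0
    -- sum over the vertices
    have hsum := Finset.sum_le_sum hvert
    rw [← Finset.mul_sum, Finset.sum_add_distrib, ← Finset.mul_sum, Finset.sum_const,
      nsmul_eq_mul] at hsum
    have hA : l ≤ ∑ v ∈ S, sq (nb G S v) x := by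
      have e1 : ∑ v ∈ S, sq (nb G S v) x = ∑ v ∈ S, ∑ u ∈ S, W G v u * x u ^ 2 :=
        Finset.sum_congr rfl fun v _ => by unfold sq; rw [sum_nb]
      have e2 : ∑ v ∈ S, ∑ u ∈ S, W G v u * x u ^ 2 = ∑ v ∈ S, ∑ u ∈ S, W G v u * x v ^ 2 := by
        rw [Finset.sum_comm]
        exact Finset.sum_congr rfl fun u _ => Finset.sum_congr rfl fun v _ => by
          rw [W_symm G v u]
      have e3 : l + l ≤ ∑ v ∈ S, ∑ u ∈ S, W G v u * x u ^ 2 +
          ∑ v ∈ S, ∑ u ∈ S, W G v u * x v ^ 2 := by
        rw [hl, qf_eq, ← Finset.sum_add_distrib, ← Finset.sum_add_distrib]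
        refine Finset.sum_le_sum fun v _ => ?_
        rw [← Finset.sum_add_distrib, ← Finset.sum_add_distrib]
        refine Finset.sum_le_sum fun u _ => ?_
        nlinarith [mul_nonneg (W_nonneg G v u) (sq_nonneg (x v - x u))]
      linarith
    have hB : ∑ v ∈ S, ((nb G S v).card : ℝ) ≤ l * (S.card : ℝ) := by
      have e1 : ∑ v ∈ S, ((nb G S v).card : ℝ) = qf G S (fun _ => 1) := by
        unfold qf deg
        refine Finset.sum_congr rfl fun v _ => ?_
        rw [one_mul, ← sum_nb]
        simp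
      have e2 : sq S (fun _ => 1) = (S.card : ℝ) := by
        unfold sq; simp
      rw [e1, ← e2]
      exact hxmax _
    have hcomb : dP t (j + 2) * (l + μ) * l ≤
        (S.card : ℝ) * (dP t (j + 1) * l + μ * P t (j + 1) ^ 2) := by
      have hd2 := dP_nonneg ht (j + 2)
      have hd1 := dP_nonneg ht (j + 1)
      have q1 : dP t (j + 2) * (l + μ) * l ≤
          dP t (j + 2) * (l + μ) * ∑ v ∈ S, sq (nb G S v) x :=
        mul_le_mul_of_nonneg_left hA (by positivity)
      have q2 := mul_le_mul_of_nonneg_left hB hd1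
      nlinarith
    have := step_algebra (t := t) (a := P t (j + 1)) (a' := dP t (j + 1)) (l := l) (μ := μ)
      (d := (S.card : ℝ)) ht (P_one_le ht j) (dP_nonneg ht (j + 1)) (dP_le ht (j + 1)) hl0 hμ
      (by positivity) (by rw [← dP_succ]; exact hcomb)
    rw [← P_succ, ← dP_succ, ← dP_succ] at this
    exact this

/-- The chain inequality for the whole graph. -/
theorem chain_univ {G : SimpleGraph V} {t l μ : ℝ} {r : ℕ} (hr : 1 ≤ r) (ht : 0 ≤ t) (hμ : 0 ≤ μ)
    (hG : G.CliqueFree (r + 1)) {x : V → ℝ} (hx1 : sq univ x = 1) (hl : qf G univ x = l)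
    (hpsd : ∀ f, -μ * sq univ f ≤ qf G univ f) :
    dP t (r + 1) * (l + μ) ≤ dP t r * (Fintype.card V : ℝ) + μ * P t r ^ 2 := by
  obtain ⟨j, rfl⟩ : ∃ j, r = j + 1 := ⟨r - 1, by omega⟩
  have := chain (G := G) ht hμ hpsd j univ (by
    intro s _ hs; exact hG s hs) x
  rw [hx1, hl] at this
  simpa using this

end Pool.Agent.Work.MP_f94384_co
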