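import Mathlib

/-!
The quantities in the question: largest and smallest adjacency eigenvalue, and the extremal
function `f r n`.
-/

namespace Pool.Agent.Work.MP_f94384_co

open Classical in
/-- the adjacency matrix over the reals -/
noncomputable def adj {V : Type*} (G : SimpleGraph V) : Matrix V V ℝ := G.adjMatrix ℝ

/-- largest adjacency eigenvalue: the supremum of the spectrum of the adjacency matrix -/
noncomputable def lamMax {V : Type*} [Fintype V] [DecidableEq V] (G : SimpleGraph V) : ℝ :=
  sSup (spectrum ℝ (adj G))

/-- smallest adjacency eigenvalue: the infimum of the spectrum of the adjacency matrix -/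
noncomputable def lamMin {V : Type*} [Fintype V] [DecidableEq V] (G : SimpleGraph V) : ℝ :=
  sInf (spectrum ℝ (adj G))

/-- the values of the sum of largest and smallest eigenvalue over all graphs on `n` vertices
that contain no complete graph on `r + 1` vertices -/
def sums (r n : ℕ) : Set ℝ :=
  {s | ∃ G : SimpleGraph (Fin n), G.CliqueFree (r + 1) ∧ s = lamMax G + lamMin G}

/-- the extremal function: the supremum (a maximum for `n ≥ 1`) of the set `sums r n` -/
noncomputable def f (r n : ℕ) : ℝ := sSup (sums r n)

end Pool.Agent.Work.MP_f94384_co
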