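import Pool.Agent.Work.MP_f94384_co.Small

/-!
Bounds on the extremal function.
-/

open Finset

set_option linter.unusedSectionVars false
set_option linter.unusedDecidableInType false
set_option linter.unusedFintypeInType false

namespace Pool.Agent.Work.MP_f94384_co

theorem sums_finite (r n : ℕ) : (sums r n).Finite := by
  have : sums r n ⊆ Set.range fun G : SimpleGraph (Fin n) => lamMax G + lamMin G := by
    rintro s ⟨G, _, rfl⟩
    exact ⟨G, rfl⟩
  exact (Set.finite_range _).subset this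

theorem sums_nonempty {r : ℕ} (hr : 1 ≤ r) (n : ℕ) : (sums r n).Nonempty :=
  ⟨_, SimpleGraph.turanGraph n r, SimpleGraph.turanGraph_cliqueFree (by omega), rfl⟩

theorem f_isGreatest {r : ℕ} (hr : 1 ≤ r) (n : ℕ) : IsGreatest (sums r n) (f r n) :=
  ⟨(sums_nonempty hr n).csSup_mem (sums_finite r n),
    fun _ hs => le_csSup (sums_finite r n).bddAbove hs⟩

theorem f_lower {r n : ℕ} (hr : 1 ≤ r) (hn : 1 ≤ n) :
    (n : ℝ) - 2 * (⌈(n : ℝ) / r⌉₊ : ℝ) ≤ f r n :=
  (turan_lower n r hn (by omega)).trans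
    ((f_isGreatest hr n).2 ⟨_, SimpleGraph.turanGraph_cliqueFree (by omega), rfl⟩)

theorem f_upper {r n : ℕ} (hr : 60 ≤ r) (hn : 1 ≤ n) : f r n ≤ (1 - 2 / (r : ℝ)) * n := by
  obtain ⟨G, hG, hf⟩ := (f_isGreatest (by omega : 1 ≤ r) n).1
  rw [hf]
  have := sum_le_of_large_r G ⟨⟨0, hn⟩, Finset.mem_univ _⟩ hr hG
  rwa [Fintype.card_fin] at this

theorem f_upper_all {r n : ℕ} (hr : 2 ≤ r) (hn : 1 ≤ n) :
    f r n ≤ (1 - 2 / (r : ℝ) + 3 / (2 * (r : ℝ) ^ 3)) * n := by
  obtain ⟨G, hG, hf⟩ := (f_isGreatest (by omega : 1 ≤ r) n).1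
  rw [hf]
  have := sum_le_explicit G ⟨⟨0, hn⟩, Finset.mem_univ _⟩ hr hG
  rwa [Fintype.card_fin] at this

theorem f_eq_of_dvd {r n : ℕ} (hr : 60 ≤ r) (hn : 1 ≤ n) (h : r ∣ n) :
    f r n = (1 - 2 / (r : ℝ)) * n := by
  refine le_antisymm (f_upper hr hn) ?_
  obtain ⟨k, rfl⟩ := h
  have hr0 : (0 : ℝ) < r := by
    have : 0 < r := by omega
    exact_mod_cast this
  have h1 := f_lower (r := r) (by omega) hn
  have h2 : (((r * k : ℕ) : ℝ)) / r = (k : ℝ) := by push_cast; field_simp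
  rw [h2, Nat.ceil_natCast] at h1
  refine le_trans (le_of_eq ?_) h1
  push_cast
  field_simp

theorem f_tendsto {r : ℕ} (hr : 60 ≤ r) :
    Filter.Tendsto (fun n : ℕ => f r n / n) Filter.atTop (nhds (1 - 2 / (r : ℝ))) := by
  have hr0 : (0 : ℝ) < r := by
    have : 0 < r := by omega
    exact_mod_cast this
  have hlow : Filter.Tendsto (fun n : ℕ => (1 - 2 / (r : ℝ)) - 2 / (n : ℝ)) Filter.atTop
      (nhds (1 - 2 / (r : ℝ))) := by
    have := (tendsto_const_nhds (x := (1 - 2 / (r : ℝ)))).sub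
      (tendsto_const_div_atTop_nhds_zero_nat (2 : ℝ))
    simpa using this
  refine tendsto_of_tendsto_of_tendsto_of_le_of_le' hlow tendsto_const_nhds ?_ ?_
  · filter_upwards [Filter.eventually_ge_atTop 1] with n hn
    have hn0 : (0 : ℝ) < n := by exact_mod_cast hn
    rw [le_div_iff₀ hn0]
    have h1 := f_lower (r := r) (by omega) hn
    have h2 : (⌈(n : ℝ) / r⌉₊ : ℝ) < (n : ℝ) / r + 1 := Nat.ceil_lt_add_one (by positivity)
    have h3 : ((1 - 2 / (r : ℝ)) - 2 / (n : ℝ)) * n = n - 2 * ((n : ℝ) / r + 1) := by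
      field_simp
      ring
    rw [h3]
    linarith
  · filter_upwards [Filter.eventually_ge_atTop 1] with n hn
    have hn0 : (0 : ℝ) < n := by exact_mod_cast hn
    rw [div_le_iff₀ hn0]
    exact f_upper hr hn

end Pool.Agent.Work.MP_f94384_co
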