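import Pool.Agent.Work.MP_f94384_co.Chain

/-!
The greedy partition of a graph without `K_{r+1}`, weighted by a nonnegative vector, the
weighted Turán inequality, and the structure lemma for edges inside a class.
-/

open Finset

set_option linter.unusedSectionVars false
set_option linter.unusedDecidableInType false
set_option linter.unusedFintypeInType false

namespace Pool.Agent.Work.MP_f94384_co

variable {V : Type*} [Fintype V] [DecidableEq V]

/-- total weight -/
def wt (x : V → ℝ) (S : Finset V) : ℝ := ∑ u ∈ S, x u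

theorem wt_nonneg {x : V → ℝ} (hx : ∀ v, 0 ≤ x v) (S : Finset V) : 0 ≤ wt x S :=
  Finset.sum_nonneg fun v _ => hx v

theorem deg_nonneg (G : SimpleGraph V) {x : V → ℝ} (hx : ∀ v, 0 ≤ x v) (v : V) (S : Finset V) :
    0 ≤ deg G x v S :=
  Finset.sum_nonneg fun u _ => mul_nonneg (W_nonneg G v u) (hx u)

theorem deg_le_wt (G : SimpleGraph V) {x : V → ℝ} (hx : ∀ v, 0 ≤ x v) (v : V) (S : Finset V) :
    deg G x v S ≤ wt x S :=
  Finset.sum_le_sum fun u _ => by
    have := W_le_one G v u
    nlinarith [hx u]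

/-- weight of the pairs that are not adjacent -/
noncomputable def Qf (G : SimpleGraph V) (x : V → ℝ) (S : Finset V) : ℝ :=
  wt x S ^ 2 - qf G S x

theorem qf_nonneg (G : SimpleGraph V) {x : V → ℝ} (hx : ∀ v, 0 ≤ x v) (S : Finset V) :
    0 ≤ qf G S x :=
  Finset.sum_nonneg fun u _ => mul_nonneg (hx u) (deg_nonneg G hx u S)

theorem Qf_nonneg (G : SimpleGraph V) {x : V → ℝ} (hx : ∀ v, 0 ≤ x v) (S : Finset V) :
    0 ≤ Qf G x S := by
  unfold Qf qf
  have : ∑ u ∈ S, x u * deg G x u S ≤ ∑ u ∈ S, x u * wt x S :=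
    Finset.sum_le_sum fun u _ => mul_le_mul_of_nonneg_left (deg_le_wt G hx u S) (hx u)
  rw [← Finset.sum_mul] at this
  have h2 : (∑ u ∈ S, x u) * wt x S = wt x S ^ 2 := by unfold wt; ring
  linarith

theorem deg_split (G : SimpleGraph V) (x : V → ℝ) {T S : Finset V} (h : T ⊆ S) (v : V) :
    deg G x v S = deg G x v T + deg G x v (S \ T) := by
  unfold deg
  rw [add_comm, Finset.sum_sdiff h]

theorem wt_split (x : V → ℝ) {T S : Finset V} (h : T ⊆ S) :
    wt x S = wt x T + wt x (S \ T) := by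
  unfold wt
  rw [add_comm, Finset.sum_sdiff h]

theorem deg_swap (G : SimpleGraph V) (x : V → ℝ) (S T : Finset V) :
    ∑ v ∈ S, x v * deg G x v T = ∑ v ∈ T, x v * deg G x v S := by
  unfold deg
  simp_rw [Finset.mul_sum]
  rw [Finset.sum_comm]
  exact Finset.sum_congr rfl fun u _ => Finset.sum_congr rfl fun v _ => by
    rw [W_symm G v u]; ring

theorem qf_split (G : SimpleGraph V) (x : V → ℝ) {T S : Finset V} (h : T ⊆ S) :
    qf G S x = qf G T x + 2 * ∑ v ∈ S \ T, x v * deg G x v S - qf G (S \ T) x := by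
  have h1 : qf G S x = ∑ v ∈ T, x v * deg G x v S + ∑ v ∈ S \ T, x v * deg G x v S := by
    unfold qf
    rw [add_comm, Finset.sum_sdiff h]
  have h2 : ∑ v ∈ T, x v * deg G x v S =
      qf G T x + ∑ v ∈ T, x v * deg G x v (S \ T) := by
    unfold qf
    rw [← Finset.sum_add_distrib]
    exact Finset.sum_congr rfl fun v _ => by rw [deg_split G x h v]; ring
  have h3 : ∑ v ∈ T, x v * deg G x v (S \ T) = ∑ v ∈ S \ T, x v * deg G x v T :=
    deg_swap G x T (S \ T)
  have h4 : ∑ v ∈ S \ T, x v * deg G x v T =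
      ∑ v ∈ S \ T, x v * deg G x v S - qf G (S \ T) x := by
    unfold qf
    rw [← Finset.sum_sub_distrib]
    exact Finset.sum_congr rfl fun v _ => by rw [deg_split G x h v]; ring
  rw [h1, h2, h3, h4]; ring

theorem Qf_split (G : SimpleGraph V) (x : V → ℝ) {T S : Finset V} (h : T ⊆ S) :
    Qf G x S = Qf G x T + 2 * ∑ v ∈ S \ T, x v * (wt x S - deg G x v S) -
      wt x (S \ T) ^ 2 + qf G (S \ T) x := by
  have h1 : ∑ v ∈ S \ T, x v * (wt x S - deg G x v S) =
      wt x (S \ T) * wt x S - ∑ v ∈ S \ T, x v * deg G x v S := by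
    have : wt x (S \ T) * wt x S = ∑ v ∈ S \ T, x v * wt x S := by
      rw [← Finset.sum_mul]; rfl
    rw [this, ← Finset.sum_sub_distrib]
    exact Finset.sum_congr rfl fun v _ => by ring
  unfold Qf
  rw [h1, qf_split G x h, wt_split x h]
  ring

theorem exists_top (G : SimpleGraph V) (x : V → ℝ) {S : Finset V} (hS : S.Nonempty) :
    ∃ p ∈ S, ∀ v ∈ S, deg G x v S ≤ deg G x p S := S.exists_max_image _ hS

/-- one greedy step: the neighbourhood of a vertex of largest weighted degree -/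
noncomputable def next (G : SimpleGraph V) (x : V → ℝ) (S : Finset V) : Finset V :=
  open Classical in if h : S.Nonempty then nb G S (exists_top G x h).choose else ∅

theorem next_subset (G : SimpleGraph V) (x : V → ℝ) (S : Finset V) : next G x S ⊆ S := by
  unfold next
  split_ifs
  · exact nb_subset G S _
  · exact Finset.empty_subset S

theorem deg_eq_wt_nb (G : SimpleGraph V) (x : V → ℝ) (S : Finset V) (v : V) :
    deg G x v S = wt x (nb G S v) := by
  unfold deg wt
  rw [sum_nb]

theorem deg_le_next (G : SimpleGraph V) (x : V → ℝ) {S : Finset V} {v : V} (hv : v ∈ S) :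
    deg G x v S ≤ wt x (next G x S) := by
  have hS : S.Nonempty := ⟨v, hv⟩
  have := (exists_top G x hS).choose_spec.2 v hv
  unfold next
  rw [dif_pos hS, ← deg_eq_wt_nb]
  exact this

theorem cliqueFreeOn_empty {G : SimpleGraph V} (k : ℕ) :
    G.CliqueFreeOn ((∅ : Finset V) : Set V) (k + 1) := by
  intro t ht hk
  have h0 : t = ∅ := by
    rw [Finset.coe_empty, Set.subset_empty_iff, Finset.coe_eq_empty] at ht
    exact ht
  rw [h0] at hk
  have := hk.card_eq
  simp at this

theorem next_cliqueFreeOn {G : SimpleGraph V} (x : V → ℝ) {S : Finset V} {k : ℕ}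
    (h : G.CliqueFreeOn (S : Set V) (k + 2)) :
    G.CliqueFreeOn (next G x S : Set V) (k + 1) := by
  unfold next
  split_ifs with hS
  · exact cliqueFreeOn_nb (exists_top G x hS).choose_spec.1 h
  · exact cliqueFreeOn_empty k

theorem eq_empty_of_cliqueFreeOn_one {G : SimpleGraph V} {S : Finset V}
    (h : G.CliqueFreeOn (S : Set V) 1) : S = ∅ := by
  rw [Finset.eq_empty_iff_forall_notMem]
  intro v hv
  apply h (t := {v})
  · intro w hw
    simp only [Finset.coe_singleton, Set.mem_singleton_iff] at hw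
    rw [hw]; exact hv
  · rw [SimpleGraph.isNClique_iff]
    refine ⟨?_, Finset.card_singleton v⟩
    rw [Finset.coe_singleton, SimpleGraph.isClique_iff]
    exact Set.pairwise_singleton v _

/-- Weighted Turán inequality (Motzkin and Straus). -/
theorem weighted_turan {G : SimpleGraph V} {x : V → ℝ} (hx : ∀ v, 0 ≤ x v) (k : ℕ) :
    ∀ S : Finset V, G.CliqueFreeOn (S : Set V) (k + 1) → wt x S ^ 2 ≤ k * Qf G x S := by
  induction k with
  | zero =>
    intro S hS
    rw [eq_empty_of_cliqueFreeOn_one hS]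
    simp [wt]
  | succ k ih =>
    intro S hS
    have h1 := ih (next G x S) (next_cliqueFreeOn x hS)
    have h2 := Qf_split G x (next_subset G x S)
    have h3 := wt_split x (next_subset G x S)
    have h4 : ∑ v ∈ S \ next G x S, x v * wt x (S \ next G x S) ≤
        ∑ v ∈ S \ next G x S, x v * (wt x S - deg G x v S) := by
      refine Finset.sum_le_sum fun v hv => mul_le_mul_of_nonneg_left ?_ (hx v)
      have := deg_le_next G x (Finset.mem_sdiff.1 hv).1
      linarith
    rw [← Finset.sum_mul] at h4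
    have h5 : (∑ v ∈ S \ next G x S, x v) * wt x (S \ next G x S) =
        wt x (S \ next G x S) ^ 2 := by unfold wt; ring
    have h6 := qf_nonneg G hx (S \ next G x S)
    have h7 := Qf_nonneg G hx (next G x S)
    set a := wt x (S \ next G x S) with ha
    set b := wt x (next G x S) with hb
    set q := Qf G x (next G x S) with hq
    have ha0 : 0 ≤ a := wt_nonneg hx _
    have hb0 : 0 ≤ b := wt_nonneg hx _
    have hQ : q + a ^ 2 ≤ Qf G x S := by nlinarith
    rw [h3]
    have h8 : 2 * a * b ≤ k * a ^ 2 + q := by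
      have hk : (0 : ℝ) ≤ k := Nat.cast_nonneg k
      have : (2 * a * b) ^ 2 ≤ (k * a ^ 2 + q) ^ 2 := by
        nlinarith [sq_nonneg (k * a ^ 2 - q), mul_le_mul_of_nonneg_left h1 (sq_nonneg a)]
      exact abs_le_of_sq_le_sq' this (by positivity) |>.2
    push_cast
    nlinarith

/-- the nested sets of the greedy partition -/
noncomputable def Vq (G : SimpleGraph V) (x : V → ℝ) : ℕ → Finset V
  | 0 => univ
  | i + 1 => next G x (Vq G x i)

/-- the classes of the greedy partition -/
noncomputable def Cq (G : SimpleGraph V) (x : V → ℝ) (i : ℕ) : Finset V :=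
  Vq G x i \ Vq G x (i + 1)

theorem Vq_succ_subset (G : SimpleGraph V) (x : V → ℝ) (i : ℕ) :
    Vq G x (i + 1) ⊆ Vq G x i := next_subset G x _

theorem Vq_anti (G : SimpleGraph V) (x : V → ℝ) {i j : ℕ} (h : i ≤ j) :
    Vq G x j ⊆ Vq G x i := by
  induction j, h using Nat.le_induction with
  | base => exact Finset.Subset.refl _
  | succ j _ ih => exact (Vq_succ_subset G x j).trans ih

theorem Vq_cliqueFreeOn {G : SimpleGraph V} (x : V → ℝ) {r : ℕ} (hG : G.CliqueFree (r + 1))
    {i : ℕ} (hi : i ≤ r) : G.CliqueFreeOn (Vq G x i : Set V) (r - i + 1) := by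
  induction i with
  | zero => intro s _ hs; exact hG s hs
  | succ i ih =>
    have h1 := ih (by omega)
    have h2 : r - i + 1 = (r - (i + 1)) + 2 := by omega
    rw [h2] at h1
    exact next_cliqueFreeOn x h1

theorem Vq_top {G : SimpleGraph V} (x : V → ℝ) {r : ℕ} (hG : G.CliqueFree (r + 1)) :
    Vq G x r = ∅ := by
  have := Vq_cliqueFreeOn x hG le_rfl
  rw [Nat.sub_self] at this
  exact eq_empty_of_cliqueFreeOn_one this

theorem sum_Vq {G : SimpleGraph V} (x : V → ℝ) {r : ℕ} (hG : G.CliqueFree (r + 1))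
    (g : V → ℝ) {i : ℕ} (hi : i ≤ r) :
    ∑ v ∈ Vq G x i, g v = ∑ j ∈ Finset.Ico i r, ∑ v ∈ Cq G x j, g v := by
  induction hi using Nat.decreasingInduction with
  | self => rw [Vq_top x hG]; simp
  | of_succ i hi ih =>
    rw [Finset.sum_eq_sum_Ico_succ_bot hi, ← ih, Cq, add_comm,
      add_comm, Finset.sum_sdiff (Vq_succ_subset G x i)]

/-- class weight -/
noncomputable def aq (G : SimpleGraph V) (x : V → ℝ) (i : ℕ) : ℝ := wt x (Cq G x i)

/-- weighted degree inside the class -/
noncomputable def inn (G : SimpleGraph V) (x : V → ℝ) (i : ℕ) (v : V) : ℝ :=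
  deg G x v (Cq G x i)

/-- defect of the greedy choice -/
noncomputable def tq (G : SimpleGraph V) (x : V → ℝ) (i : ℕ) (v : V) : ℝ :=
  wt x (Vq G x (i + 1)) - deg G x v (Vq G x i)

/-- weight of the pairs inside the class -/
noncomputable def Eq (G : SimpleGraph V) (x : V → ℝ) (i : ℕ) : ℝ := qf G (Cq G x i) x

/-- total defect of the class -/
noncomputable def Tq (G : SimpleGraph V) (x : V → ℝ) (i : ℕ) : ℝ :=
  ∑ v ∈ Cq G x i, x v * tq G x i v

theorem aq_nonneg (G : SimpleGraph V) {x : V → ℝ} (hx : ∀ v, 0 ≤ x v) (i : ℕ) :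
    0 ≤ aq G x i := wt_nonneg hx _

theorem Eq_nonneg (G : SimpleGraph V) {x : V → ℝ} (hx : ∀ v, 0 ≤ x v) (i : ℕ) :
    0 ≤ Eq G x i := qf_nonneg G hx _

theorem tq_nonneg (G : SimpleGraph V) (x : V → ℝ) (i : ℕ) {v : V}
    (hv : v ∈ Cq G x i) : 0 ≤ tq G x i v := by
  have := deg_le_next G x (Finset.mem_sdiff.1 hv).1
  unfold tq
  have h2 : Vq G x (i + 1) = next G x (Vq G x i) := rfl
  rw [h2]; linarith

theorem Tq_nonneg (G : SimpleGraph V) {x : V → ℝ} (hx : ∀ v, 0 ≤ x v) (i : ℕ) :
    0 ≤ Tq G x i :=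
  Finset.sum_nonneg fun v hv => mul_nonneg (hx v) (tq_nonneg G x i hv)

theorem inn_nonneg (G : SimpleGraph V) {x : V → ℝ} (hx : ∀ v, 0 ≤ x v) (i : ℕ) (v : V) :
    0 ≤ inn G x i v := deg_nonneg G hx v _

theorem inn_le (G : SimpleGraph V) {x : V → ℝ} (hx : ∀ v, 0 ≤ x v) (i : ℕ) (v : V) :
    inn G x i v ≤ aq G x i := deg_le_wt G hx v _

theorem Qf_rec (G : SimpleGraph V) (x : V → ℝ) (i : ℕ) :
    Qf G x (Vq G x i) = Qf G x (Vq G x (i + 1)) + aq G x i ^ 2 + 2 * Tq G x i + Eq G x i := by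
  have h1 := Qf_split G x (Vq_succ_subset G x i)
  have h2 := wt_split x (Vq_succ_subset G x i)
  have h3 : ∑ v ∈ Vq G x i \ Vq G x (i + 1), x v * (wt x (Vq G x i) - deg G x v (Vq G x i)) =
      aq G x i ^ 2 + Tq G x i := by
    have e : aq G x i ^ 2 = ∑ v ∈ Cq G x i, x v * aq G x i := by
      rw [← Finset.sum_mul]; unfold aq wt; ring
    rw [e]
    unfold Tq
    rw [← Finset.sum_add_distrib]
    refine Finset.sum_congr rfl fun v _ => ?_
    have h4 : wt x (Vq G x i) = wt x (Vq G x (i + 1)) + aq G x i := h2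
    rw [h4]; unfold tq; ring
  rw [h1, h3]
  have h5 : wt x (Vq G x i \ Vq G x (i + 1)) = aq G x i := rfl
  have h6 : qf G (Vq G x i \ Vq G x (i + 1)) x = Eq G x i := rfl
  rw [h5, h6]; ring

theorem Qf_sum {G : SimpleGraph V} (x : V → ℝ) {r : ℕ} (hG : G.CliqueFree (r + 1))
    {i : ℕ} (hi : i ≤ r) :
    Qf G x (Vq G x i) = ∑ j ∈ Finset.Ico i r, (aq G x j ^ 2 + (Eq G x j + 2 * Tq G x j)) := by
  induction hi using Nat.decreasingInduction with
  | self => rw [Vq_top x hG]; simp [Qf, qf, wt]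
  | of_succ i hi ih =>
    rw [Finset.sum_eq_sum_Ico_succ_bot hi, ← ih, Qf_rec]; ring

end Pool.Agent.Work.MP_f94384_co
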