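import Pool.Agent.Work.MP_f94384_co.Budget

/-!
The exact upper bound for `r ≥ 60`.
-/

open Finset

set_option linter.unusedSectionVars false
set_option linter.unusedDecidableInType false
set_option linter.unusedFintypeInType false

namespace Pool.Agent.Work.MP_f94384_co

/-- final contradiction, first case -/
theorem case_one {A o HH EE TT T β Y : ℝ} (hA : 0 < A) (ho : 0 ≤ o) (hoA : o ≤ A)
    (hTT0 : 0 ≤ TT) (hTT : TT ≤ T) (hEE0 : 0 ≤ EE) (hEE : EE ≤ A ^ 2 * (1 - (11 / 20) ^ 2))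
    (hY0 : 0 ≤ Y) (hY : Y ≤ 1002 / 10000) (hβ : β ≤ 100086 / 100000 * Y * A ^ 2)
    (hR : (2 / 3) * (A ^ 3 - (A * (11 / 20)) ^ 3) ≤
      2 * HH + 2 * (A + o) * TT + o * EE + 2 * A * TT)
    (hmain : (5391 / 10000) * HH + A * (2 * T + o ^ 2) ≤ A * (β + (14 / 25) * Y * EE)) :
    False := by
  have h1 : o * EE ≤ o * (A ^ 2 * (1 - (11 / 20) ^ 2)) := mul_le_mul_of_nonneg_left hEE ho
  have h2 : 2 * (A + o) * TT + 2 * A * TT ≤ 6 * A * T := by
    have : 0 ≤ T := hTT0.trans hTT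
    nlinarith [mul_nonneg hA.le hTT0, mul_le_mul_of_nonneg_right hoA hTT0,
      mul_le_mul_of_nonneg_left hTT hA.le]
  have hT0 : 0 ≤ T := hTT0.trans hTT
  have h3 : Y * EE ≤ 1002 / 10000 * (A ^ 2 * (1 - (11 / 20) ^ 2)) :=
    mul_le_mul hY hEE hEE0 (by norm_num)
  have h4 : β ≤ 100086 / 100000 * (1002 / 10000) * A ^ 2 := by
    nlinarith [mul_le_mul_of_nonneg_right hY (sq_nonneg A)]
  have h5 : A * (β + (14 / 25) * Y * EE) ≤
      A * ((100086 / 100000 * (1002 / 10000) + (14 / 25) * (1002 / 10000) *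
        (1 - (11 / 20) ^ 2)) * A ^ 2) :=
    mul_le_mul_of_nonneg_left (by nlinarith) hA.le
  have h6 : 0 ≤ A * T := mul_nonneg hA.le hT0
  have h7 : 0 ≤ A * (o - 94 / 1000 * A) ^ 2 := mul_nonneg hA.le (sq_nonneg _)
  have h8 : 0 < A ^ 3 := by positivity
  nlinarith

/-- final contradiction, second case -/
theorem case_two {A o H E T β Y : ℝ} (hA : 0 < A) (ho : 0 ≤ o)
    (hT0 : 0 ≤ T) (hE0 : 0 ≤ E) (hE : E ≤ A ^ 2 * (1 - (11 / 20) ^ 2))
    (hE2 : 29 * β ≤ E) (hβ0 : 0 < β) (hY0 : 0 ≤ Y) (hYβ : Y * A ^ 2 ≤ β) (hoβ : o ^ 2 ≤ β)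
    (hR : (11 / 20 * A - o) * E ≤ 2 * H + 2 * (A + o) * T)
    (hmain : (5391 / 10000) * H + A * (2 * T + o ^ 2) ≤ A * (β + (14 / 25) * Y * E)) :
    False := by
  have hA2 : 0 < A ^ 2 := by positivity
  have h1 : β ≤ 2406 / 100000 * A ^ 2 := by nlinarith
  have h2 : o ≤ 1552 / 10000 * A := by
    have : o ^ 2 ≤ (1552 / 10000 * A) ^ 2 := by nlinarith
    exact (abs_le_of_sq_le_sq' this (by positivity)).2
  have h3 : Y ≤ 2406 / 100000 := by
    have : Y * A ^ 2 ≤ 2406 / 100000 * A ^ 2 := by linarith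
    exact le_of_mul_le_mul_right this hA2
  have h4 : (11 / 20 * A - 1552 / 10000 * A) * E ≤ (11 / 20 * A - o) * E :=
    mul_le_mul_of_nonneg_right (by linarith) hE0
  have h5 : (A + o) * T ≤ (A + 1552 / 10000 * A) * T :=
    mul_le_mul_of_nonneg_right (by linarith) hT0
  have h6 : Y * E ≤ 2406 / 100000 * E := mul_le_mul_of_nonneg_right h3 hE0
  have h7 : 0 ≤ A * T := mul_nonneg hA.le hT0
  have h8 : A * (β + (14 / 25) * Y * E) ≤ A * (β + (14 / 25) * (2406 / 100000) * E) :=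
    mul_le_mul_of_nonneg_left (by nlinarith) hA.le
  have h9 : 0 ≤ A * o ^ 2 := mul_nonneg hA.le (sq_nonneg _)
  have h10 : A * (9 / 100 * E) ≤ A * β := by nlinarith
  have h11 := le_of_mul_le_mul_left h10 hA
  linarith

theorem Y_numeric {r Y : ℝ} (hr : 60 ≤ r) (hY : 1002 / 10000 ≤ Y) (hY2 : Y < 2)
    (h : Y * (r - Y) < 6) : False := by
  have h1 : Y * (60 - Y) ≤ Y * (r - Y) := mul_le_mul_of_nonneg_left (by linarith) (by linarith)
  nlinarith

theorem Nl_bound {r N l Y : ℝ} (hr : 60 ≤ r) (hN : 0 < N) (hl : 0 < l) (hY : Y < 1002 / 10000)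
    (h : (r - 1 - Y / 2) * N < r * l) : N / l ≤ 10179 / 10000 := by
  rw [div_le_iff₀ hl]
  have h1 : (982498 / 1000000) * r ≤ r - 1 - Y / 2 := by linarith
  have h2 := mul_le_mul_of_nonneg_right h1 hN.le
  have h3 : r * ((982498 / 1000000) * N) ≤ r * l := by linarith
  have h4 := le_of_mul_le_mul_left h3 (by linarith)
  linarith

theorem wN_bound {r N l w2 Y s : ℝ} (hr : 60 ≤ r) (hN : 0 < N) (hY : Y < 1002 / 10000)
    (h : (r - 1 - Y / 2) * N < r * l) (hdef : (r - 1) * w2 = r * (l + s)) (hs : 0 ≤ s) :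
    99915 / 100000 * N ≤ w2 := by
  have h1 : 99915 / 100000 * (r - 1) ≤ r - 1 - Y / 2 := by linarith
  have h2 := mul_le_mul_of_nonneg_right h1 hN.le
  have h4 : 0 ≤ r * s := mul_nonneg (by linarith) hs
  have h3 : (r - 1) * (99915 / 100000 * N) ≤ (r - 1) * w2 := by rw [hdef]; linarith
  exact le_of_mul_le_mul_left h3 (by linarith)

variable {V : Type*} [Fintype V] [DecidableEq V]

theorem large_r {G : SimpleGraph V} {x : V → ℝ} {l μ : ℝ} {r : ℕ} (hr : 60 ≤ r)
    (hx : ∀ v, 0 ≤ x v) (hG : G.CliqueFree (r + 1)) (hx1 : sq univ x = 1)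
    (hxe : ∀ v, deg G x v univ = l * x v) (hpsd : ∀ f, -μ * sq univ f ≤ qf G univ f)
    (hμ : 0 ≤ μ) : l - μ ≤ (1 - 2 / (r : ℝ)) * (Fintype.card V : ℝ) := by
  by_contra hcon
  rw [not_le] at hcon
  have hr0 : (0 : ℝ) < r := by have : 0 < r := by omega
                               exact_mod_cast this
  have hr60 : (60 : ℝ) ≤ r := by exact_mod_cast hr
  have hVne : (univ : Finset V).Nonempty := by
    by_contra h
    rw [Finset.not_nonempty_iff_eq_empty] at h
    rw [h] at hx1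
    simp [sq] at hx1
  have hN0 : 0 < (Fintype.card V : ℝ) := by
    have : 0 < Fintype.card V := Finset.card_pos.2 hVne
    exact_mod_cast this
  have hql : qf G univ x = l := by
    unfold qf
    rw [Finset.sum_congr rfl fun v _ => by rw [hxe v]]
    have : ∑ u, x u * (l * x u) = l * sq univ x := by
      unfold sq; rw [Finset.mul_sum]; exact Finset.sum_congr rfl fun u _ => by ring
    rw [this, hx1, mul_one]
  have hdef := defect_identity G (by omega : 0 < r) hG hx1 hxe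
  have htest0 := sum_test G (by omega : 0 < r) hG (β := fun _ _ => 0) (l := l) (μ := μ)
    (by
      have h1 : 2 / (r : ℝ) ≤ 1 := by rw [div_le_one hr0]; linarith
      have h2 : 0 ≤ (1 - 2 / (r : ℝ)) * (Fintype.card V : ℝ) :=
        mul_nonneg (by linarith) hN0.le
      linarith) hx1 hxe hpsd
  have hwN : wt x univ ^ 2 ≤ (Fintype.card V : ℝ) := by
    have h1 := sq_sum_le_card_mul_sum_sq (s := (univ : Finset V)) (f := x)
    have h2 : ∑ v, x v ^ 2 = 1 := hx1
    rw [h2, mul_one] at h1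
    exact h1
  set N := (Fintype.card V : ℝ) with hN
  set w := wt x univ with hw
  set Ω := ∑ j ∈ Finset.Ico 0 r, (aq G x j - w / r) ^ 2 with hΩ
  set T := ∑ j ∈ Finset.Ico 0 r, Tq G x j with hT
  set E := ∑ j ∈ Finset.Ico 0 r, Eq G x j with hE
  have hΩ0 : 0 ≤ Ω := Finset.sum_nonneg fun _ _ => sq_nonneg _
  have hT0 : 0 ≤ T := Finset.sum_nonneg fun j _ => Tq_nonneg G hx j
  have hE0 : 0 ≤ E := Finset.sum_nonneg fun j _ => Eq_nonneg G hx j
  have hconr : (r - 2) * N < r * (l - μ) := by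
    have := mul_lt_mul_of_pos_left hcon hr0
    have e : (r : ℝ) * ((1 - 2 / (r : ℝ)) * N) = (r - 2) * N := by field_simp
    rwa [e] at this
  have hl0 : 0 < l := by
    have h1 : 0 < (r - 2) * N := mul_pos (by linarith) hN0
    have h2 : 0 < r * (l - μ) := by linarith
    have h3 : 0 < l - μ := (mul_pos_iff_of_pos_left hr0).1 h2
    linarith
  have hdefr : (r - 1) * w ^ 2 = r * (l + Ω + 2 * T + E) := by
    rw [← hdef]; field_simp
  have hw0 : 0 ≤ w := wt_nonneg hx _
  have hw2 : 0 < w ^ 2 := by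
    by_contra h
    have h1 : w ^ 2 ≤ 0 := not_lt.1 h
    have h2 : (r - 1) * w ^ 2 ≤ 0 := mul_nonpos_of_nonneg_of_nonpos (by linarith) h1
    have h3 : 0 < r * (l + Ω + 2 * T + E) := by positivity
    linarith
  have hwpos : 0 < w := by
    rcases hw0.eq_or_lt with h | h
    · rw [← h] at hw2; norm_num at hw2
    · exact h
  -- the test with `β = 0`
  have ht0 : (l + μ) - r * μ ≤ r * E := by
    have e1 : ∀ j : ℕ, qf G (Cq G x j) (fun _ => (0:ℝ)) = 0 := by
      intro j; simp [qf, deg]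
    simpa [e1] using htest0
  have hσN : l + μ < N := by
    have h1 : (r - 1) * w ^ 2 ≤ (r - 1) * N := mul_le_mul_of_nonneg_left hwN (by linarith)
    have h2 : r * (l + E) ≤ r * (l + Ω + 2 * T + E) :=
      mul_le_mul_of_nonneg_left (by linarith) hr0.le
    linarith
  set y := 1 - (l + μ) / N with hy
  have hσ : l + μ = (1 - y) * N := by rw [hy]; field_simp; ring
  have hy0 : 0 < y := by
    rw [hy, sub_pos, div_lt_one hN0]; exact hσN
  have h5 : 2 * μ < (2 / (r : ℝ) - y) * N := by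
    have : l - μ = (1 - y) * N - 2 * μ := by linarith
    rw [this] at hcon
    linarith
  have hchain := sigma_le (by omega : 1 ≤ r) hμ (by linarith : 0 < l + μ) hG hx1 hql hpsd
  obtain ⟨hY6, hY2⟩ := Y_bound (by omega : 2 ≤ r) hN0 hy0 hσ h5 hμ hchain
  set Y := (r : ℝ) * y with hY
  have hYpos : 0 < Y := mul_pos hr0 hy0
  have hYle : Y < 1002 / 10000 := by
    by_contra h
    rw [not_lt] at h
    exact Y_numeric hr60 h hY2 hY6
  have hy1 : y ≤ 1 := by
    have h1 : (60 : ℝ) * y ≤ r * y := mul_le_mul_of_nonneg_right hr60 hy0.le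
    linarith
  have hyr : 0 ≤ 1 / (r : ℝ) - y / 2 := by
    have : r * (1 / (r : ℝ) - y / 2) = 1 - Y / 2 := by rw [hY]; field_simp
    have h1 : 0 ≤ r * (1 / (r : ℝ) - y / 2) := by rw [this]; linarith
    exact nonneg_of_mul_nonneg_right h1 hr0
  -- basic estimates
  have hμr : r * μ < (1 - Y / 2) * N := by
    have h1 := mul_lt_mul_of_pos_left h5 hr0
    have h2 : (r : ℝ) * ((2 / (r : ℝ) - y) * N) = 2 * ((1 - Y / 2) * N) := by
      rw [hY]; field_simp
    rw [h2] at h1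
    linarith
  have hlr : (r - 1 - Y / 2) * N < r * l := by
    have : r * l = r * ((1 - y) * N) - r * μ := by rw [← hσ]; ring
    rw [this]
    have h1 : r * ((1 - y) * N) = (r - Y) * N := by rw [hY]; ring
    rw [h1]; linarith
  have hNl : N / l ≤ 10179 / 10000 := Nl_bound hr60 hN0 hl0 hYle hlr
  have hwN' : 99915 / 100000 * N ≤ w ^ 2 :=
    wN_bound (s := Ω + 2 * T + E) hr60 hN0 hYle hlr (by rw [hdefr]; ring) (by positivity)
  set A := w / r with hA
  have hA0 : 0 < A := div_pos hwpos hr0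
  have hwA : w = r * A := by rw [hA]; field_simp
  set o := Real.sqrt Ω with ho
  have ho0 : 0 ≤ o := Real.sqrt_nonneg _
  have ho2 : o ^ 2 = Ω := Real.sq_sqrt hΩ0
  have hOle : ∑ j ∈ Finset.Ico 0 r, (aq G x j - A) ^ 2 ≤ o ^ 2 := by rw [ho2]
  set β := y * N / r with hβ
  have hβ0 : 0 < β := by positivity
  have hβr : r * β = y * N := by rw [hβ]; field_simp
  have hβle : β ≤ 100086 / 100000 * Y * A ^ 2 := by
    have h1 : r ^ 2 * β = Y * N := by rw [hY, hβ]; field_simp
    have h2 : w ^ 2 = r ^ 2 * A ^ 2 := by rw [hwA]; ring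
    have h3 : Y * N ≤ 100086 / 100000 * Y * w ^ 2 := by
      have h4 := mul_le_mul_of_nonneg_left hwN' hYpos.le
      have h5 : 0 ≤ Y * w ^ 2 := mul_nonneg hYpos.le hw2.le
      linarith
    rw [← h1, h2] at h3
    have h4 : (r : ℝ) ^ 2 * β ≤ r ^ 2 * (100086 / 100000 * Y * A ^ 2) := by linarith
    exact le_of_mul_le_mul_left h4 (by positivity)
  have hβge : Y * A ^ 2 ≤ β := by
    have h1 : r ^ 2 * β = Y * N := by rw [hY, hβ]; field_simp
    have h2 : w ^ 2 = r ^ 2 * A ^ 2 := by rw [hwA]; ring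
    have h3 : Y * w ^ 2 ≤ Y * N := mul_le_mul_of_nonneg_left hwN hYpos.le
    rw [← h1, h2] at h3
    have h4 : (r : ℝ) ^ 2 * (Y * A ^ 2) ≤ r ^ 2 * β := by linarith
    exact le_of_mul_le_mul_left h4 (by positivity)
  -- the scaled budget inequality
  have hscaled : ∀ ϑ : ℕ → ℝ, (∀ j, 0 ≤ ϑ j) → (∀ j, ϑ j ≤ 1) →
      (∑ j ∈ Finset.Ico 0 r, ϑ j * eq' G x j ≤ A ^ 2 * (1 - (11 / 20) ^ 2)) →
      (5391 / 10000) * (∑ j ∈ Finset.Ico 0 r, ϑ j * Hq G x j) + A * (2 * T + o ^ 2) ≤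
        A * (β + (14 / 25) * Y * ∑ j ∈ Finset.Ico 0 r, ϑ j * Eq G x j) := by
    intro ϑ hϑ0 hϑ1 hϑs
    have hM : ∀ j < r, ϑ j * Eq G x j ≤ (836 / 1000 * A) ^ 2 := by
      intro j hj
      have h1 : ϑ j * eq' G x j ≤ ∑ j ∈ Finset.Ico 0 r, ϑ j * eq' G x j :=
        Finset.single_le_sum (f := fun j => ϑ j * eq' G x j)
          (fun j _ => mul_nonneg (hϑ0 j) (eq'_nonneg G hx j))
          (Finset.mem_Ico.2 ⟨Nat.zero_le j, hj⟩)
      have h2 : ϑ j * Eq G x j ≤ ϑ j * eq' G x j := by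
        refine mul_le_mul_of_nonneg_left ?_ (hϑ0 j)
        have := Tq_nonneg G hx j; unfold eq'; linarith
      have h3 : (836 / 1000 * A) ^ 2 = 698896 / 1000000 * A ^ 2 := by ring
      have h4 := sq_nonneg A
      rw [h3]
      linarith
    have hb := budget hx (by omega : 0 < r) hG hx1 hxe hpsd hl0 hμ hσ h5.le hy0.le hy1 hϑ0 hϑ1
      (κ := (11 / 20) / A) (M := 836 / 1000 * A) (by positivity) (by positivity) hM hyr
    rw [← hN, ← hw, ← hT, ← hA, ← hΩ, ← ho2] at hb
    set HH := ∑ j ∈ Finset.Ico 0 r, ϑ j * Hq G x j with hHH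
    set EE := ∑ j ∈ Finset.Ico 0 r, ϑ j * Eq G x j with hEE
    have hHH0 : 0 ≤ HH := Finset.sum_nonneg fun j _ => mul_nonneg (hϑ0 j) (Hq_nonneg G hx j)
    have hEE0 : 0 ≤ EE := Finset.sum_nonneg fun j _ => mul_nonneg (hϑ0 j) (Eq_nonneg G hx j)
    have hb' := mul_le_mul_of_nonneg_left hb hA0.le
    have e1 : A * ((2 * (11 / 20 / A) - (11 / 20 / A) ^ 2 * (836 / 1000 * A)) * HH +
        2 * T + o ^ 2) = (11 / 10 - (11 / 20) ^ 2 * (836 / 1000)) * HH + A * (2 * T + o ^ 2) := by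
      field_simp
      ring
    have e2 : A * (y * N / r + y * N * (11 / 20 / A * (w / l) * EE) +
        (1 / (r : ℝ) - y / 2) * N * ((11 / 20 / A) ^ 2 * (w / l) * HH)) =
        A * (β + (11 / 20) * Y * (N / l) * EE) +
        (1 - Y / 2) * (11 / 20) ^ 2 * (N / l) * HH := by
      rw [hwA, hβ, hY]
      field_simp
    rw [e1, e2] at hb'
    have e3 : (11 / 20) * Y * (N / l) * EE ≤ (14 / 25) * Y * EE := by
      have : (N / l) * (Y * EE) ≤ (10179 / 10000) * (Y * EE) :=
        mul_le_mul_of_nonneg_right hNl (mul_nonneg hYpos.le hEE0)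
      have h6 := mul_nonneg hYpos.le hEE0
      linarith
    have e4 : (1 - Y / 2) * (11 / 20) ^ 2 * (N / l) * HH ≤
        (11 / 20) ^ 2 * (10179 / 10000) * HH := by
      have h1 : (N / l) * HH ≤ (10179 / 10000) * HH := mul_le_mul_of_nonneg_right hNl hHH0
      have h2 : 0 ≤ (N / l) * HH := mul_nonneg (div_nonneg hN0.le hl0.le) hHH0
      have h3 := mul_nonneg hYpos.le h2
      linarith
    have e5 : A * (β + (11 / 20) * Y * (N / l) * EE) ≤ A * (β + (14 / 25) * Y * EE) :=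
      mul_le_mul_of_nonneg_left (by linarith) hA0.le
    linarith
  have hΩβ : o ^ 2 ≤ β := by
    have h1 := hscaled (fun _ => 0) (fun _ => le_rfl) (fun _ => zero_le_one) (by
      simp only [zero_mul, Finset.sum_const_zero]
      have : (0:ℝ) ≤ 1 - (11 / 20) ^ 2 := by norm_num
      positivity)
    simp only [zero_mul, Finset.sum_const_zero, mul_zero, add_zero, zero_add] at h1
    have h2 := le_of_mul_le_mul_left h1 hA0
    linarith
  have hoA : o ≤ A := by
    have h2 : Y * A ^ 2 ≤ 1002 / 10000 * A ^ 2 :=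
      mul_le_mul_of_nonneg_right hYle.le (sq_nonneg A)
    have h3 := sq_nonneg A
    have h1 : o ^ 2 ≤ A ^ 2 := by linarith
    exact (abs_le_of_sq_le_sq' h1 hA0.le).2
  have hElow : 29 * β ≤ E := by
    have h1 : r * E ≥ (l + μ) - r * μ := ht0
    have h2 : (Y / 2 - y) * N ≤ r * E := by
      rw [hσ] at h1
      linarith
    have h3 : r * (29 * β) = 29 * (y * N) := by rw [← hβr]; ring
    have h4 : 29 * (y * N) ≤ (Y / 2 - y) * N := by
      have h5 : 0 < y * N := mul_pos hy0 hN0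
      have h6 : (Y / 2 - y) * N = (r / 2 - 1) * (y * N) := by rw [hY]; ring
      rw [h6]
      exact mul_le_mul_of_nonneg_right (by linarith) h5.le
    have h5 : r * (29 * β) ≤ r * E := by rw [h3]; linarith
    exact le_of_mul_le_mul_left h5 hr0
  have he : ∀ j, 0 ≤ eq' G x j := fun j => eq'_nonneg G hx j
  by_cases hcase : A ^ 2 * (1 - (11 / 20) ^ 2) < tail r (eq' G x) 0
  · obtain ⟨ϑ, hϑ0, hϑ1, hϑt, hϑs, hϑR⟩ :=
      exists_theta he hA0.le (by norm_num) (by norm_num) hcase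
    have hsc := hscaled ϑ hϑ0 hϑ1 hϑs.le
    set HH := ∑ j ∈ Finset.Ico 0 r, ϑ j * Hq G x j with hHH
    set EE := ∑ j ∈ Finset.Ico 0 r, ϑ j * Eq G x j with hEE
    set TT := ∑ j ∈ Finset.Ico 0 r, ϑ j * Tq G x j with hTT
    have hEE0 : 0 ≤ EE := Finset.sum_nonneg fun j _ => mul_nonneg (hϑ0 j) (Eq_nonneg G hx j)
    have hTT0 : 0 ≤ TT := Finset.sum_nonneg fun j _ => mul_nonneg (hϑ0 j) (Tq_nonneg G hx j)
    have hTTT : TT ≤ T := Finset.sum_le_sum fun j _ => by
      have := mul_le_mul_of_nonneg_right (hϑ1 j) (Tq_nonneg G hx j)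
      linarith
    have hEETT : EE + 2 * TT = ∑ j ∈ Finset.Ico 0 r, ϑ j * eq' G x j := by
      rw [hEE, hTT, Finset.mul_sum, ← Finset.sum_add_distrib]
      exact Finset.sum_congr rfl fun j _ => by unfold eq'; ring
    have hEEle : EE ≤ A ^ 2 * (1 - (11 / 20) ^ 2) := by rw [← hϑs, ← hEETT]; linarith
    have hR : ∑ j ∈ Finset.Ico 0 r, ϑ j * eq' G x j * Real.sqrt (A ^ 2 - tail r (eq' G x) (j + 1))
        ≤ 2 * HH + 2 * (A + o) * TT + o * EE + 2 * A * TT := by
      have e : 2 * HH + 2 * (A + o) * TT + o * EE + 2 * A * TT = ∑ j ∈ Finset.Ico 0 r,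
          (ϑ j * (2 * Hq G x j + 2 * (A + o) * Tq G x j + o * Eq G x j + 2 * A * Tq G x j)) := by
        rw [hHH, hEE, hTT, Finset.mul_sum, Finset.mul_sum, Finset.mul_sum, Finset.mul_sum,
          ← Finset.sum_add_distrib, ← Finset.sum_add_distrib, ← Finset.sum_add_distrib]
        exact Finset.sum_congr rfl fun j _ => by ring
      rw [e]
      refine Finset.sum_le_sum fun j hj => ?_
      have hjr : j < r := (Finset.mem_Ico.1 hj).2
      rw [mul_assoc]
      by_cases hϑj : ϑ j = 0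
      · rw [hϑj]; simp
      · refine mul_le_mul_of_nonneg_left ?_ (hϑ0 j)
        have h1 := hϑt j hjr hϑj
        have h2 : tail r (eq' G x) (j + 1) ≤ A ^ 2 := by
          have := sq_nonneg A
          linarith
        have h3 := edge_bound hx hG hjr hA0.le ho0 hOle h2
        have h4 : Real.sqrt (A ^ 2 - tail r (eq' G x) (j + 1)) ≤ A := by
          rw [Real.sqrt_le_left hA0.le]
          have := tail_nonneg (r := r) he (j + 1)
          linarith
        have h5 := mul_le_mul_of_nonneg_right h4 (Tq_nonneg G hx j)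
        have h6 : eq' G x j = Eq G x j + 2 * Tq G x j := rfl
        rw [h6]
        linarith
    exact case_one hA0 ho0 hoA hTT0 hTTT hEE0 hEEle hYpos.le hYle.le hβle (hϑR.trans hR) hsc
  · rw [not_lt] at hcase
    have hsc := hscaled (fun _ => 1) (fun _ => zero_le_one) (fun _ => le_rfl) (by
      simp only [one_mul]; exact hcase)
    simp only [one_mul] at hsc
    rw [← hE] at hsc
    have hEle : E ≤ A ^ 2 * (1 - (11 / 20) ^ 2) := by
      refine le_trans ?_ hcase
      rw [hE]; unfold tail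
      refine Finset.sum_le_sum fun j _ => ?_
      have := Tq_nonneg G hx j; unfold eq'; linarith
    set H := ∑ j ∈ Finset.Ico 0 r, Hq G x j with hH
    have hR : (11 / 20 * A - o) * E ≤ 2 * H + 2 * (A + o) * T := by
      rw [hE, hH, hT, Finset.mul_sum, Finset.mul_sum, Finset.mul_sum, ← Finset.sum_add_distrib]
      refine Finset.sum_le_sum fun j hj => ?_
      have hjr : j < r := (Finset.mem_Ico.1 hj).2
      have h1 : tail r (eq' G x) (j + 1) ≤ tail r (eq' G x) 0 := by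
        unfold tail
        exact Finset.sum_le_sum_of_subset_of_nonneg
          (Finset.Ico_subset_Ico_left (by omega)) fun i _ _ => he i
      have h2 : tail r (eq' G x) (j + 1) ≤ A ^ 2 := by
        have := sq_nonneg A
        linarith
      have h3 := edge_bound hx hG hjr hA0.le ho0 hOle h2
      have h4 : 11 / 20 * A ≤ Real.sqrt (A ^ 2 - tail r (eq' G x) (j + 1)) := by
        apply Real.le_sqrt_of_sq_le
        linarith
      have h5 := mul_le_mul_of_nonneg_right h4 (Eq_nonneg G hx j)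
      linarith
    exact case_two hA0 ho0 hT0 hE0 hEle hElow hβ0 hYpos.le hβge hΩβ hR hsc

end Pool.Agent.Work.MP_f94384_co
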