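import Pool.Agent.Work.MP_f94384_co.Spec

/-!
Explicit bounds for small `r`, and the lower bound from the Turán graph.
-/

open Finset

set_option linter.unusedSectionVars false
set_option linter.unusedDecidableInType false
set_option linter.unusedFintypeInType false

namespace Pool.Agent.Work.MP_f94384_co

/-- the values `(q^k P (p/q) k, q^k dP (p/q) k, q^k)` -/
def ints (p q : ℕ) : ℕ → ℕ × ℕ × ℕ
  | 0 => (0, 0, 1)
  | k + 1 =>
    let s := ints p q k
    (q * s.2.2 + p * s.1, q * s.1 + p * s.2.1, q * s.2.2)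

theorem ints_eq {p q : ℕ} (hq : 0 < q) (k : ℕ) :
    ((ints p q k).1 : ℝ) = (q : ℝ) ^ k * P ((p : ℝ) / q) k ∧
    ((ints p q k).2.1 : ℝ) = (q : ℝ) ^ k * dP ((p : ℝ) / q) k ∧
    ((ints p q k).2.2 : ℝ) = (q : ℝ) ^ k := by
  have hq' : (q : ℝ) ≠ 0 := by exact_mod_cast hq.ne'
  induction k with
  | zero => simp [ints, P, dP]
  | succ k ih =>
    obtain ⟨h1, h2, h3⟩ := ih
    refine ⟨?_, ?_, ?_⟩
    · show (((q * (ints p q k).2.2 + p * (ints p q k).1 : ℕ)) : ℝ) = _
      push_cast
      rw [h1, h3, P_succ, pow_succ]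
      field_simp
    · show (((q * (ints p q k).1 + p * (ints p q k).2.1 : ℕ)) : ℝ) = _
      push_cast
      rw [h1, h2, dP_succ, pow_succ]
      field_simp
    · show (((q * (ints p q k).2.2 : ℕ)) : ℝ) = _
      push_cast
      rw [h3, pow_succ]
      ring

/-- the two conditions needed for the explicit bound -/
def good (r p q : ℕ) : Bool :=
  (0 < q) && (2 ≤ r) &&
  ((ints p q r).1 ^ 2 * q ≤ 2 * (ints p q (r + 1)).2.1 * (ints p q r).2.2) &&
  (2 * r ^ 3 * q * (ints p q r).2.1 + 4 * r ^ 2 * (ints p q (r + 1)).2.1 ≤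
    (2 * r ^ 3 + 3) * (ints p q (r + 1)).2.1)

/-- rational values used for `2 ≤ r < 60` -/
def table : List (ℕ × ℕ × ℕ) :=
  [(2, 24, 10), (3, 142, 100), (4, 1214, 1000), (5, 11305, 10000), (6, 10883, 10000),
   (7, 106388, 100000), (8, 10484, 10000), (9, 103799, 100000), (10, 103062, 100000),
   (11, 1025219, 1000000), (12, 102113, 100000), (13, 1017969, 1000000), (14, 1015467, 1000000),
   (15, 1013455, 1000000), (16, 1011813, 1000000), (17, 10104547, 10000000),
   (18, 1009318, 1000000), (19, 10083576, 10000000), (20, 10075386, 10000000),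
   (21, 10068344, 10000000), (22, 10062246, 10000000), (23, 1005693, 1000000),
   (24, 10052269, 10000000), (25, 100481578, 100000000), (26, 10044513, 10000000),
   (27, 10041268, 10000000), (28, 100383655, 100000000), (29, 100357589, 100000000),
   (30, 100334094, 100000000), (31, 10031284, 10000000), (32, 100293556, 100000000),
   (33, 100276, 100000), (34, 100259976, 100000000), (35, 100245308, 100000000),
   (36, 100231848, 100000000), (37, 100219466, 100000000), (38, 100208051, 100000000),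
   (39, 100197504, 100000000), (40, 10018774, 10000000), (41, 100178683, 100000000),
   (42, 1001702658, 1000000000), (43, 1001624299, 1000000000), (44, 1001551229, 1000000000),
   (45, 100148298, 100000000), (46, 1001419144, 1000000000), (47, 100135934, 100000000),
   (48, 100130324, 100000000), (49, 1001250546, 1000000000), (50, 1001200984, 1000000000),
   (51, 100115431, 100000000), (52, 1001110309, 1000000000), (53, 1001068775, 1000000000),
   (54, 100102953, 100000000), (55, 1000992408, 1000000000), (56, 1000957258, 1000000000),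
   (57, 1000923943, 1000000000), (58, 1000892339, 1000000000), (59, 1000862329, 1000000000)]

theorem table_good : ∀ e ∈ table, good e.1 e.2.1 e.2.2 = true := by decide +kernel

theorem table_cover : ∀ r ∈ Finset.Ico 2 60, ∃ e ∈ table, e.1 = r := by decide +kernel

theorem good_spec {r p q : ℕ} (h : good r p q = true) :
    0 < q ∧ 2 ≤ r ∧ P ((p : ℝ) / q) r ^ 2 ≤ 2 * dP ((p : ℝ) / q) (r + 1) ∧
    dP ((p : ℝ) / q) r ≤
      (1 - 2 / (r : ℝ) + 3 / (2 * (r : ℝ) ^ 3)) * dP ((p : ℝ) / q) (r + 1) := by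
  unfold good at h
  simp only [Bool.and_eq_true, decide_eq_true_eq] at h
  obtain ⟨⟨⟨hq, hr⟩, h1⟩, h2⟩ := h
  have hq' : (0 : ℝ) < q := by exact_mod_cast hq
  have hr' : (0 : ℝ) < r := by
    have : 0 < r := by omega
    exact_mod_cast this
  obtain ⟨a1, a2, a3⟩ := ints_eq (p := p) hq r
  obtain ⟨_, b2, _⟩ := ints_eq (p := p) hq (r + 1)
  refine ⟨hq, hr, ?_, ?_⟩
  · have h3 : (((ints p q r).1 ^ 2 * q : ℕ) : ℝ) ≤
        ((2 * (ints p q (r + 1)).2.1 * (ints p q r).2.2 : ℕ) : ℝ) := by exact_mod_cast h1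
    push_cast at h3
    have hp : (q : ℝ) ^ (r + 1) = q ^ r * q := pow_succ _ _
    rw [a1, b2, a3, hp] at h3
    have h4 : ((q : ℝ) ^ r * q * q ^ r) * P ((p : ℝ) / q) r ^ 2 ≤
        ((q : ℝ) ^ r * q * q ^ r) * (2 * dP ((p : ℝ) / q) (r + 1)) := by linarith
    exact le_of_mul_le_mul_left h4 (by positivity)
  · have h3 : ((2 * r ^ 3 * q * (ints p q r).2.1 + 4 * r ^ 2 * (ints p q (r + 1)).2.1 : ℕ) : ℝ) ≤
        (((2 * r ^ 3 + 3) * (ints p q (r + 1)).2.1 : ℕ) : ℝ) := by exact_mod_cast h2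
    push_cast at h3
    have hp : (q : ℝ) ^ (r + 1) = q ^ r * q := pow_succ _ _
    rw [a2, b2, hp] at h3
    have h4 : ((q : ℝ) ^ r * q * (2 * r ^ 3)) * dP ((p : ℝ) / q) r ≤
        ((q : ℝ) ^ r * q * (2 * r ^ 3)) *
          ((1 - 2 / (r : ℝ) + 3 / (2 * (r : ℝ) ^ 3)) * dP ((p : ℝ) / q) (r + 1)) := by
      have e : ((q : ℝ) ^ r * q * (2 * r ^ 3)) *
          ((1 - 2 / (r : ℝ) + 3 / (2 * (r : ℝ) ^ 3)) * dP ((p : ℝ) / q) (r + 1)) =
          ((q : ℝ) ^ r * q) * ((2 * r ^ 3 - 4 * r ^ 2 + 3) * dP ((p : ℝ) / q) (r + 1)) := by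
        field_simp
        ring
      rw [e]
      linarith
    exact le_of_mul_le_mul_left h4 (by positivity)

variable {V : Type*} [Fintype V] [DecidableEq V]

theorem general_bound (G : SimpleGraph V) (hV : (univ : Finset V).Nonempty) {r : ℕ}
    (hr : 1 ≤ r) (hG : G.CliqueFree (r + 1)) {t : ℝ} (ht : 0 ≤ t)
    (hP : P t r ^ 2 ≤ 2 * dP t (r + 1)) :
    dP t (r + 1) * (lamMax G + lamMin G) ≤ dP t r * (Fintype.card V : ℝ) := by
  obtain ⟨x, _, h1, _, h3, _⟩ := top_facts G hV
  have h4 := (bot_facts G hV).2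
  have h5 := lamMin_nonpos G hV
  have := chain_univ (μ := -lamMin G) hr ht (by linarith) hG h1 h3 (by simpa using h4)
  have h6 : -lamMin G * P t r ^ 2 ≤ -lamMin G * (2 * dP t (r + 1)) :=
    mul_le_mul_of_nonneg_left hP (by linarith)
  linarith

/-- explicit bound for every `r ≥ 2` -/
theorem sum_le_explicit (G : SimpleGraph V) (hV : (univ : Finset V).Nonempty) {r : ℕ}
    (hr : 2 ≤ r) (hG : G.CliqueFree (r + 1)) :
    lamMax G + lamMin G ≤
      (1 - 2 / (r : ℝ) + 3 / (2 * (r : ℝ) ^ 3)) * (Fintype.card V : ℝ) := by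
  rcases Nat.lt_or_ge r 60 with h60 | h60
  · obtain ⟨⟨r', p, q⟩, he, hr'⟩ := table_cover r (Finset.mem_Ico.2 ⟨hr, h60⟩)
    have hr'' : r' = r := hr'
    subst hr''
    have hg := table_good _ he
    obtain ⟨hq, _, h1, h2⟩ := good_spec hg
    have ht : (0 : ℝ) ≤ (p : ℝ) / q := by positivity
    have h3 := general_bound G hV (by omega : 1 ≤ r') hG ht h1
    have h4 : 0 < dP ((p : ℝ) / q) (r' + 1) := by
      obtain ⟨j, hj⟩ : ∃ j, r' = j + 1 := ⟨r' - 1, by omega⟩
      rw [dP_succ]
      have h5 : 1 ≤ P ((p : ℝ) / q) r' := by rw [hj]; exact P_one_le ht j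
      have h6 := mul_nonneg ht (dP_nonneg ht r')
      linarith
    have h5 := mul_le_mul_of_nonneg_right h2 (Nat.cast_nonneg (α := ℝ) (Fintype.card V))
    have h6 : dP ((p : ℝ) / q) (r' + 1) * (lamMax G + lamMin G) ≤
        dP ((p : ℝ) / q) (r' + 1) *
          ((1 - 2 / (r' : ℝ) + 3 / (2 * (r' : ℝ) ^ 3)) * (Fintype.card V : ℝ)) := by linarith
    exact le_of_mul_le_mul_left h6 h4
  · refine (sum_le_of_large_r G hV h60 hG).trans ?_
    refine mul_le_mul_of_nonneg_right ?_ (Nat.cast_nonneg _)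
    have : (0 : ℝ) ≤ 3 / (2 * (r : ℝ) ^ 3) := by positivity
    linarith

theorem P_eq_sum (t : ℝ) (k : ℕ) : P t k = ∑ i ∈ Finset.range k, t ^ i := by
  induction k with
  | zero => simp [P]
  | succ k ih =>
    rw [P_succ, ih, Finset.sum_range_succ', Finset.mul_sum, add_comm]
    congr 1
    exact Finset.sum_congr rfl fun i _ => by ring

/-- the chain inequality in closed form -/
theorem spread_inequality (G : SimpleGraph V) (hV : (univ : Finset V).Nonempty) {r : ℕ}
    (hr : 1 ≤ r) (hG : G.CliqueFree (r + 1)) :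
    (lamMax G - lamMin G) ^ r ≤ -lamMin G *
      ∑ i ∈ Finset.range r, (Fintype.card V : ℝ) ^ i * (lamMax G - lamMin G) ^ (r - 1 - i) := by
  obtain ⟨x, hx0, h1, _, h3, _⟩ := top_facts G hV
  have h4 := (bot_facts G hV).2
  have h5 := lamMin_nonpos G hV
  have h6 : 0 ≤ lamMax G := by rw [← h3]; exact qf_nonneg G hx0 _
  rcases (show 0 ≤ lamMax G - lamMin G by linarith).eq_or_lt with h0 | h0
  · rw [← h0, zero_pow (by omega)]
    have h7 : lamMin G = 0 := by linarith
    rw [h7]; simp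
  · have := sigma_le (μ := -lamMin G) hr (by linarith) (by linarith) hG h1 h3
      (by simpa using h4)
    rw [← sub_eq_add_neg] at this
    set s := lamMax G - lamMin G with hs
    have h7 : s ^ (r - 1) * P ((Fintype.card V : ℝ) / s) r =
        ∑ i ∈ Finset.range r, (Fintype.card V : ℝ) ^ i * s ^ (r - 1 - i) := by
      rw [P_eq_sum, Finset.mul_sum]
      refine Finset.sum_congr rfl fun i hi => ?_
      have hi' : i < r := Finset.mem_range.1 hi
      rw [div_pow]
      have : s ^ (r - 1) = s ^ (r - 1 - i) * s ^ i := by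
        rw [← pow_add]; congr 1; omega
      rw [this]
      field_simp
    rw [← h7]
    have h8 := mul_le_mul_of_nonneg_left this (pow_nonneg h0.le (r - 1))
    have h9 : s ^ r = s ^ (r - 1) * s := by
      rw [← pow_succ]; congr 1; omega
    rw [h9]
    linarith

/-- size of a residue class -/
theorem class_card (n r : ℕ) (hr : 0 < r) (u : Fin n) :
    ((univ.filter fun v : Fin n => (v : ℕ) % r = (u : ℕ) % r).card) ≤ ⌈(n : ℝ) / r⌉₊ := by
  rw [← Finset.card_range ⌈(n : ℝ) / r⌉₊]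
  refine Finset.card_le_card_of_injOn (fun v : Fin n => (v : ℕ) / r) ?_ ?_
  · intro v _
    simp only [Finset.coe_range, Set.mem_Iio]
    have h1 : (((v : ℕ) / r : ℕ) : ℝ) ≤ ((v : ℕ) : ℝ) / r := Nat.cast_div_le
    have hr' : (0 : ℝ) < r := by exact_mod_cast hr
    have h2 : ((v : ℕ) : ℝ) / r < (n : ℝ) / r := by
      rw [div_lt_div_iff_of_pos_right hr']
      exact_mod_cast v.2
    have h3 : (n : ℝ) / r ≤ (⌈(n : ℝ) / r⌉₊ : ℝ) := Nat.le_ceil _
    have h4 : (((v : ℕ) / r : ℕ) : ℝ) < (⌈(n : ℝ) / r⌉₊ : ℝ) := by linarith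
    exact_mod_cast h4
  · intro v hv w hw h
    simp only [Finset.coe_filter, Finset.mem_univ, true_and, Set.mem_ofPred_eq] at hv hw
    have h1 : (v : ℕ) / r = (w : ℕ) / r := h
    have h2 := Nat.div_add_mod (v : ℕ) r
    have h3 := Nat.div_add_mod (w : ℕ) r
    apply Fin.ext
    rw [← h2, ← h3, h1, hv, hw]

/-- indicator of a common residue -/
noncomputable def same (n r : ℕ) (u v : Fin n) : ℝ :=
  if (v : ℕ) % r = (u : ℕ) % r then 1 else 0

theorem same_symm (n r : ℕ) (u v : Fin n) : same n r u v = same n r v u := by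
  unfold same
  by_cases h : (v : ℕ) % r = (u : ℕ) % r
  · rw [if_pos h, if_pos h.symm]
  · rw [if_neg h, if_neg fun h' => h h'.symm]

theorem same_nonneg (n r : ℕ) (u v : Fin n) : 0 ≤ same n r u v := by
  unfold same; split_ifs <;> norm_num

theorem turan_W (n r : ℕ) (u v : Fin n) :
    W (SimpleGraph.turanGraph n r) u v = 1 - same n r u v := by
  unfold same
  by_cases h : (v : ℕ) % r = (u : ℕ) % r
  · rw [W_of_not_adj, if_pos h]
    · ring
    · intro h'; exact h' h.symm
  · rw [W_of_adj, if_neg h]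
    · ring
    · show (u : ℕ) % r ≠ (v : ℕ) % r
      exact fun h' => h h'.symm

theorem class_sum_le (n r : ℕ) (hr : 0 < r) (u : Fin n) :
    ∑ v : Fin n, same n r u v ≤ (⌈(n : ℝ) / r⌉₊ : ℝ) := by
  unfold same
  rw [Finset.sum_ite, Finset.sum_const_zero, add_zero, Finset.sum_const, nsmul_eq_mul, mul_one]
  exact_mod_cast class_card n r hr u

theorem turan_lower (n r : ℕ) (hn : 1 ≤ n) (hr : 0 < r) :
    (n : ℝ) - 2 * (⌈(n : ℝ) / r⌉₊ : ℝ) ≤
      lamMax (SimpleGraph.turanGraph n r) + lamMin (SimpleGraph.turanGraph n r) := by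
  set G := SimpleGraph.turanGraph n r with hG
  set K := (⌈(n : ℝ) / r⌉₊ : ℝ) with hK
  have hV : (univ : Finset (Fin n)).Nonempty := ⟨⟨0, hn⟩, Finset.mem_univ _⟩
  have hn' : (0 : ℝ) < n := by exact_mod_cast hn
  -- the top eigenvalue
  obtain ⟨x, _, _, _, _, hmax⟩ := top_facts G hV
  have h1 := hmax (fun _ => 1)
  have e1 : sq (univ : Finset (Fin n)) (fun _ => (1 : ℝ)) = n := by unfold sq; simp
  have e2 : (n : ℝ) * (n - K) ≤ qf G univ (fun _ => 1) := by
    rw [qf_eq]
    have : ∀ u ∈ (univ : Finset (Fin n)), (n : ℝ) - K ≤ ∑ v, W G u v * 1 * 1 := by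
      intro u _
      have h2 : ∑ v, W G u v * 1 * 1 = n - ∑ v : Fin n, same n r u v := by
        simp_rw [hG, turan_W, mul_one]
        rw [Finset.sum_sub_distrib]
        simp
      rw [h2]
      have := class_sum_le n r hr u
      linarith
    have h3 := Finset.sum_le_sum this
    rw [Finset.sum_const, Finset.card_univ, Fintype.card_fin, nsmul_eq_mul] at h3
    exact h3
  have h2 : (n : ℝ) - K ≤ lamMax G := by
    rw [e1] at h1
    have : (n : ℝ) * (n - K) ≤ n * lamMax G := by linarith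
    exact le_of_mul_le_mul_left this hn'
  -- the bottom eigenvalue
  obtain ⟨⟨z, hz1, hz2⟩, _⟩ := bot_facts G hV
  have h3 : -K ≤ lamMin G := by
    rw [← hz2, qf_eq]
    have e3 : ∑ u, ∑ v, W G u v * z u * z v = (∑ u, z u) ^ 2 -
        ∑ u, ∑ v, same n r u v * (z u * z v) := by
      rw [pow_two, Finset.sum_mul_sum, ← Finset.sum_sub_distrib]
      refine Finset.sum_congr rfl fun u _ => ?_
      rw [← Finset.sum_sub_distrib]
      exact Finset.sum_congr rfl fun v _ => by rw [hG, turan_W]; ring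
    have e4 : ∑ u, ∑ v, same n r u v * (z u * z v) ≤
        ∑ u, ∑ v, same n r u v * ((z u ^ 2 + z v ^ 2) / 2) := by
      refine Finset.sum_le_sum fun u _ => Finset.sum_le_sum fun v _ => ?_
      refine mul_le_mul_of_nonneg_left ?_ (same_nonneg n r u v)
      nlinarith [sq_nonneg (z u - z v)]
    have e6 : ∑ u, ∑ v, same n r u v * (z v ^ 2 / 2) =
        ∑ u, ∑ v, same n r u v * (z u ^ 2 / 2) := by
      rw [Finset.sum_comm]
      exact Finset.sum_congr rfl fun u _ => Finset.sum_congr rfl fun v _ => by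
        rw [same_symm n r v u]
    have e7 : ∑ u, ∑ v, same n r u v * ((z u ^ 2 + z v ^ 2) / 2) =
        ∑ u, ∑ v, same n r u v * (z u ^ 2 / 2) + ∑ u, ∑ v, same n r u v * (z v ^ 2 / 2) := by
      rw [← Finset.sum_add_distrib]
      refine Finset.sum_congr rfl fun u _ => ?_
      rw [← Finset.sum_add_distrib]
      exact Finset.sum_congr rfl fun v _ => by ring
    have e5 : ∑ u, ∑ v, same n r u v * ((z u ^ 2 + z v ^ 2) / 2) =
        ∑ u, z u ^ 2 * ∑ v, same n r u v := by
      rw [e7, e6, ← Finset.sum_add_distrib]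
      refine Finset.sum_congr rfl fun u _ => ?_
      rw [← Finset.sum_add_distrib, Finset.mul_sum]
      exact Finset.sum_congr rfl fun v _ => by ring
    have e8 : ∑ u, z u ^ 2 * ∑ v, same n r u v ≤ ∑ u, z u ^ 2 * K :=
      Finset.sum_le_sum fun u _ => mul_le_mul_of_nonneg_left (class_sum_le n r hr u) (sq_nonneg _)
    have e9 : ∑ u, z u ^ 2 * K = K := by
      rw [← Finset.sum_mul]
      have : ∑ u, z u ^ 2 = 1 := hz1
      rw [this, one_mul]
    rw [e3]
    have := sq_nonneg (∑ u, z u)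
    linarith
  linarith

end Pool.Agent.Work.MP_f94384_co
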