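import Pool.Agent.Work.MP_f94384_co.LargeR
import Pool.Agent.Work.MP_f94384_co.Defs

/-!
Link with the spectrum of the adjacency matrix.
-/

open Finset

set_option linter.unusedSectionVars false
set_option linter.unusedDecidableInType false
set_option linter.unusedFintypeInType false

namespace Pool.Agent.Work.MP_f94384_co

variable {V : Type*} [Fintype V] [DecidableEq V]

theorem adj_apply (G : SimpleGraph V) (u v : V) : adj G u v = W G u v := by
  unfold adj W
  rw [SimpleGraph.adjMatrix_apply]

theorem adj_mulVec (G : SimpleGraph V) (x : V → ℝ) (v : V) :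
    (adj G).mulVec x v = deg G x v univ := by
  unfold Matrix.mulVec dotProduct deg
  exact Finset.sum_congr rfl fun u _ => by
    show adj G v u * x u = W G v u * x u
    rw [adj_apply]

theorem mem_spectrum_of_eig (G : SimpleGraph V) {x : V → ℝ} (hx : x ≠ 0) {m : ℝ}
    (h : ∀ v, deg G x v univ = m * x v) : m ∈ spectrum ℝ (adj G) := by
  rw [spectrum.mem_iff]
  intro hu
  have hinj := Matrix.mulVec_injective_of_isUnit hu
  apply hx
  apply hinj
  rw [Matrix.mulVec_zero, Matrix.sub_mulVec]
  ext v
  rw [Pi.sub_apply, adj_mulVec, h v, Matrix.algebraMap_eq_diagonal, Matrix.mulVec_diagonal]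
  simp

theorem exists_eig_of_mem (G : SimpleGraph V) {m : ℝ} (hm : m ∈ spectrum ℝ (adj G)) :
    ∃ x : V → ℝ, x ≠ 0 ∧ ∀ v, deg G x v univ = m * x v := by
  rw [spectrum.mem_iff, Matrix.isUnit_iff_isUnit_det, isUnit_iff_ne_zero, not_not] at hm
  obtain ⟨x, hx, h⟩ := Matrix.exists_mulVec_eq_zero_iff.2 hm
  refine ⟨x, hx, fun v => ?_⟩
  rw [Matrix.sub_mulVec] at h
  have h1 := congrFun h v
  rw [Pi.sub_apply, adj_mulVec, Matrix.algebraMap_eq_diagonal, Matrix.mulVec_diagonal] at h1
  simp at h1
  linarith

theorem exists_min (G : SimpleGraph V) (hV : (univ : Finset V).Nonempty) :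
    ∃ x : V → ℝ, sq univ x = 1 ∧ ∀ f, qf G univ x * sq univ f ≤ qf G univ f := by
  classical
  set K : Set (V → ℝ) := {f | sq univ f = 1} with hK
  have hKc : IsCompact K := by
    have hsub : K ⊆ Set.Icc (fun _ => (-1 : ℝ)) (fun _ => (1 : ℝ)) := by
      intro f h2
      have hb : ∀ v, f v ^ 2 ≤ 1 := by
        intro v
        rw [← (show sq univ f = 1 from h2)]
        exact Finset.single_le_sum (f := fun v => f v ^ 2) (fun _ _ => sq_nonneg _)
          (Finset.mem_univ v)
      constructor
      · intro v; exact (abs_le.1 ((sq_le_one_iff_abs_le_one _).1 (hb v))).1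
      · intro v; exact (abs_le.1 ((sq_le_one_iff_abs_le_one _).1 (hb v))).2
    refine IsCompact.of_isClosed_subset isCompact_Icc ?_ hsub
    refine isClosed_eq ?_ continuous_const
    unfold sq
    fun_prop
  have hKn : K.Nonempty := by
    obtain ⟨s, _⟩ := hV
    refine ⟨Pi.single s 1, ?_⟩
    show sq univ _ = 1
    unfold sq
    rw [Finset.sum_eq_single s]
    · simp
    · intro b _ hb; simp [hb]
    · intro h; exact absurd (Finset.mem_univ s) h
  have hcont : Continuous fun f : V → ℝ => qf G univ f := by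
    unfold qf deg
    fun_prop
  obtain ⟨x, hxK, hx⟩ := hKc.exists_isMinOn hKn hcont.continuousOn
  refine ⟨x, hxK, fun f => ?_⟩
  by_cases h0 : sq univ f = 0
  · have hz : ∀ v ∈ (univ : Finset V), f v = 0 := by
      intro v hv
      have := (Finset.sum_eq_zero_iff_of_nonneg (fun v _ => sq_nonneg (f v))).1 h0 v hv
      exact pow_eq_zero_iff (two_ne_zero) |>.1 this
    have : qf G univ f = 0 := by
      unfold qf
      exact Finset.sum_eq_zero fun v hv => by rw [hz v hv, zero_mul]
    rw [this, h0, mul_zero]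
  · have hpos : 0 < sq univ f := lt_of_le_of_ne (sq_nonneg' univ f) (Ne.symm h0)
    set c := (Real.sqrt (sq univ f))⁻¹ with hc
    have hc2 : c ^ 2 * sq univ f = 1 := by
      rw [hc, inv_pow, Real.sq_sqrt hpos.le]
      exact inv_mul_cancel₀ h0
    have hgK : (fun v => c * f v) ∈ K := by
      show sq univ _ = 1
      rw [sq_smul, hc2]
    have h1 : qf G univ x ≤ qf G univ (fun v => c * f v) := hx hgK
    rw [qf_smul] at h1
    have h2 : qf G univ f = (c ^ 2 * qf G univ f) * sq univ f := by
      have : (c ^ 2 * qf G univ f) * sq univ f = qf G univ f * (c ^ 2 * sq univ f) := by ring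
      rw [this, hc2, mul_one]
    rw [h2]
    exact mul_le_mul_of_nonneg_right h1 hpos.le

theorem eigen_of_min (G : SimpleGraph V) {x : V → ℝ} (h1 : sq univ x = 1)
    (hmin : ∀ f, qf G univ x * sq univ f ≤ qf G univ f) (v : V) :
    deg G x v univ = qf G univ x * x v := by
  classical
  have hq : ∀ t : ℝ, qf G univ (fun u => x u + t * (if u = v then 1 else 0)) =
      qf G univ x + 2 * t * deg G x v univ := by
    intro t
    rw [qf_add]
    have e1 : bf G univ x (fun u => t * (if u = v then (1 : ℝ) else 0)) =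
        t * deg G x v univ := by
      rw [bf_symm]
      unfold bf
      rw [Finset.sum_eq_single v]
      · simp
      · intro b _ hb; simp [hb]
      · intro h; exact absurd (Finset.mem_univ v) h
    have e2 : qf G univ (fun u => t * (if u = v then (1 : ℝ) else 0)) = 0 := by
      rw [qf_eq]
      refine Finset.sum_eq_zero fun a _ => Finset.sum_eq_zero fun b _ => ?_
      by_cases ha : a = v
      · by_cases hb : b = v
        · rw [ha, hb, W_self]; ring
        · simp [hb]
      · simp [ha]
    rw [e1, e2]; ring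
  have hs : ∀ t : ℝ, sq univ (fun u => x u + t * (if u = v then 1 else 0)) =
      1 + 2 * t * x v + t ^ 2 := by
    intro t
    have : sq univ (fun u => x u + t * (if u = v then 1 else 0)) =
        sq univ x + ∑ u, (if u = v then (2 * t * x v + t ^ 2) else 0) := by
      unfold sq
      rw [← Finset.sum_add_distrib]
      refine Finset.sum_congr rfl fun u _ => ?_
      by_cases hu : u = v
      · subst hu; simp; ring
      · simp [hu]
    rw [this, h1, Finset.sum_ite_eq' univ v, if_pos (Finset.mem_univ v)]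
    ring
  set l := qf G univ x with hl
  set d := deg G x v univ with hd
  have key : ∀ t : ℝ, 0 ≤ (-l) * (t * t) + (2 * (d - l * x v)) * t + 0 := by
    intro t
    have := hmin (fun u => x u + t * (if u = v then 1 else 0))
    rw [hq, hs] at this
    nlinarith
  have hdisc := discrim_le_zero key
  unfold discrim at hdisc
  nlinarith [sq_nonneg (d - l * x v)]

theorem qf_of_eig (G : SimpleGraph V) {x : V → ℝ} {m : ℝ} (h : ∀ v, deg G x v univ = m * x v) :
    qf G univ x = m * sq univ x := by
  unfold qf sq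
  rw [Finset.mul_sum]
  exact Finset.sum_congr rfl fun v _ => by rw [h v]; ring

theorem sq_pos_of_ne {x : V → ℝ} (hx : x ≠ 0) : 0 < sq univ x := by
  obtain ⟨v, hv⟩ := Function.ne_iff.1 hx
  have h1 : x v ^ 2 ≤ sq univ x :=
    Finset.single_le_sum (f := fun v => x v ^ 2) (fun _ _ => sq_nonneg _) (Finset.mem_univ v)
  have h2 : 0 < x v ^ 2 := by
    have : x v ≠ 0 := hv
    positivity
  linarith

theorem ne_zero_of_sq {x : V → ℝ} (hx : sq univ x = 1) : x ≠ 0 := by
  rintro rfl
  simp [sq] at hx

theorem lamMax_isGreatest (G : SimpleGraph V) {x : V → ℝ} (hx1 : sq univ x = 1)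
    (hmax : ∀ f, qf G univ f ≤ qf G univ x * sq univ f) :
    IsGreatest (spectrum ℝ (adj G)) (qf G univ x) := by
  constructor
  · exact mem_spectrum_of_eig G (ne_zero_of_sq hx1) fun v =>
      eigen_of_max G hx1 hmax (Finset.mem_univ v)
  · intro m hm
    obtain ⟨z, hz, hz2⟩ := exists_eig_of_mem G hm
    have h1 := hmax z
    rw [qf_of_eig G hz2] at h1
    exact le_of_mul_le_mul_right h1 (sq_pos_of_ne hz)

theorem lamMin_isLeast (G : SimpleGraph V) {x : V → ℝ} (hx1 : sq univ x = 1)
    (hmin : ∀ f, qf G univ x * sq univ f ≤ qf G univ f) :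
    IsLeast (spectrum ℝ (adj G)) (qf G univ x) := by
  constructor
  · exact mem_spectrum_of_eig G (ne_zero_of_sq hx1) fun v => eigen_of_min G hx1 hmin v
  · intro m hm
    obtain ⟨z, hz, hz2⟩ := exists_eig_of_mem G hm
    have h1 := hmin z
    rw [qf_of_eig G hz2] at h1
    exact le_of_mul_le_mul_right h1 (sq_pos_of_ne hz)

/-- a nonnegative unit top eigenvector -/
theorem top_facts (G : SimpleGraph V) (hV : (univ : Finset V).Nonempty) :
    ∃ x : V → ℝ, (∀ v, 0 ≤ x v) ∧ sq univ x = 1 ∧ (∀ v, deg G x v univ = lamMax G * x v) ∧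
      qf G univ x = lamMax G ∧ ∀ f, qf G univ f ≤ lamMax G * sq univ f := by
  obtain ⟨x, h0, h1, hmax⟩ := exists_max G hV
  have h2 : lamMax G = qf G univ x := (lamMax_isGreatest G h1 hmax).csSup_eq
  rw [h2]
  exact ⟨x, h0, h1, fun v => eigen_of_max G h1 hmax (Finset.mem_univ v), rfl, hmax⟩

theorem bot_facts (G : SimpleGraph V) (hV : (univ : Finset V).Nonempty) :
    (∃ x : V → ℝ, sq univ x = 1 ∧ qf G univ x = lamMin G) ∧
      ∀ f, lamMin G * sq univ f ≤ qf G univ f := by
  obtain ⟨x, h1, hmin⟩ := exists_min G hV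
  have h2 : lamMin G = qf G univ x := (lamMin_isLeast G h1 hmin).csInf_eq
  rw [h2]
  exact ⟨⟨x, h1, rfl⟩, hmin⟩

theorem lamMin_nonpos (G : SimpleGraph V) (hV : (univ : Finset V).Nonempty) :
    lamMin G ≤ 0 := by
  classical
  obtain ⟨s, _⟩ := hV
  have h := (bot_facts G ⟨s, Finset.mem_univ s⟩).2 (fun u => if u = s then 1 else 0)
  have e1 : sq univ (fun u => if u = s then (1:ℝ) else 0) = 1 := by
    unfold sq
    rw [Finset.sum_eq_single s]
    · simp
    · intro b _ hb; simp [hb]
    · intro h; exact absurd (Finset.mem_univ s) h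
  have e2 : qf G univ (fun u => if u = s then (1:ℝ) else 0) = 0 := by
    rw [qf_eq]
    refine Finset.sum_eq_zero fun a _ => Finset.sum_eq_zero fun b _ => ?_
    by_cases ha : a = s
    · by_cases hb : b = s
      · rw [ha, hb, W_self]; ring
      · simp [hb]
    · simp [ha]
  rw [e1, e2] at h
  linarith

theorem sum_le_of_large_r (G : SimpleGraph V) (hV : (univ : Finset V).Nonempty) {r : ℕ}
    (hr : 60 ≤ r) (hG : G.CliqueFree (r + 1)) :
    lamMax G + lamMin G ≤ (1 - 2 / (r : ℝ)) * (Fintype.card V : ℝ) := by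
  obtain ⟨x, h0, h1, h2, _, _⟩ := top_facts G hV
  have h3 := (bot_facts G hV).2
  have := large_r hr h0 hG h1 h2 (μ := -lamMin G) (by simpa using h3)
    (by have := lamMin_nonpos G hV; linarith)
  linarith

end Pool.Agent.Work.MP_f94384_co
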