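import Pool.Agent.Work.MP_f94384_co.Greedy

/-!
The structure lemma: an edge inside a class of the greedy partition forces many missing
adjacencies at its two ends.
-/

open Finset

set_option linter.unusedSectionVars false
set_option linter.unusedDecidableInType false
set_option linter.unusedFintypeInType false

namespace Pool.Agent.Work.MP_f94384_co

variable {V : Type*} [Fintype V] [DecidableEq V]

/-- the algebra of the structure lemma, for at least one later class -/
theorem structure_algebra {ι : Type*} (J : Finset ι) (a z : ι → ℝ) {k : ℕ}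
    (hJ : J.card = k + 1) {A o D : ℝ} (hA : 0 ≤ A) (ho : 0 ≤ o) (hD : 0 ≤ D)
    (hz : ∀ j ∈ J, 0 ≤ z j) (hO : ∑ j ∈ J, (a j - A) ^ 2 ≤ o ^ 2)
    (h : (∑ j ∈ J, a j - ∑ j ∈ J, z j) ^ 2 ≤
      k * (∑ j ∈ J, a j ^ 2 + D - 2 * ∑ j ∈ J, z j * a j + (∑ j ∈ J, z j) ^ 2)) :
    A ^ 2 ≤ (∑ j ∈ J, z j + o) ^ 2 + D := by
  set Z := ∑ j ∈ J, z j with hZ
  have hZ0 : 0 ≤ Z := Finset.sum_nonneg hz
  set s1 := ∑ j ∈ J, (a j - A) with hs1
  set s2 := ∑ j ∈ J, (a j - A) ^ 2 with hs2
  set sz := ∑ j ∈ J, z j * (a j - A) with hsz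
  have hcard : (∑ j ∈ J, (1 : ℝ)) = k + 1 := by
    rw [Finset.sum_const, hJ]; simp
  have e1 : ∑ j ∈ J, a j = (k + 1) * A + s1 := by
    have : ∑ j ∈ J, a j = ∑ j ∈ J, (1 : ℝ) * A + s1 := by
      rw [hs1, ← Finset.sum_add_distrib]; exact Finset.sum_congr rfl fun j _ => by ring
    rw [this, ← Finset.sum_mul, hcard]
  have e2 : ∑ j ∈ J, a j ^ 2 = (k + 1) * A ^ 2 + 2 * A * s1 + s2 := by
    have : ∑ j ∈ J, a j ^ 2 = ∑ j ∈ J, (1 : ℝ) * A ^ 2 + 2 * A * s1 + s2 := by
      rw [hs1, hs2, Finset.mul_sum, ← Finset.sum_add_distrib, ← Finset.sum_add_distrib]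
      exact Finset.sum_congr rfl fun j _ => by ring
    rw [this, ← Finset.sum_mul, hcard]
  have e3 : ∑ j ∈ J, z j * a j = A * Z + sz := by
    rw [hsz, hZ, Finset.mul_sum, ← Finset.sum_add_distrib]
    exact Finset.sum_congr rfl fun j _ => by ring
  rw [e1, e2, e3] at h
  have hmain : k * A ^ 2 + (A + s1 - Z) ^ 2 ≤ k * (s2 + D - 2 * sz + Z ^ 2) := by
    nlinarith
  have hs2' : s2 ≤ o ^ 2 := hO
  have hs2'' : 0 ≤ s2 := Finset.sum_nonneg fun _ _ => sq_nonneg _
  have hszb : -sz ≤ Z * o := by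
    have c1 : sz ^ 2 ≤ (∑ j ∈ J, z j ^ 2) * s2 := by
      rw [hsz, hs2]; exact Finset.sum_mul_sq_le_sq_mul_sq J _ _
    have c2 : ∑ j ∈ J, z j ^ 2 ≤ Z ^ 2 := Finset.sum_sq_le_sq_sum_of_nonneg hz
    have c3 : sz ^ 2 ≤ (Z * o) ^ 2 := by
      calc sz ^ 2 ≤ (∑ j ∈ J, z j ^ 2) * s2 := c1
        _ ≤ Z ^ 2 * s2 := mul_le_mul_of_nonneg_right c2 hs2''
        _ ≤ Z ^ 2 * o ^ 2 := mul_le_mul_of_nonneg_left hs2' (sq_nonneg _)
        _ = _ := by ring
    have := abs_le_of_sq_le_sq' c3 (by positivity)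
    linarith [this.1]
  rcases Nat.eq_zero_or_pos k with hk | hk
  · subst hk
    have h0 : (A + s1 - Z) ^ 2 ≤ 0 := by simpa using hmain
    have h1 : A + s1 - Z = 0 := by
      have := sq_nonneg (A + s1 - Z)
      exact pow_eq_zero_iff (two_ne_zero) |>.1 (le_antisymm h0 this)
    have h2 : s1 ^ 2 ≤ o ^ 2 := by
      obtain ⟨j0, hj0⟩ := Finset.card_eq_one.1 hJ
      have : s1 ^ 2 = s2 := by rw [hs1, hs2, hj0]; simp
      rw [this]; exact hs2'
    have h3 := (abs_le_of_sq_le_sq' h2 ho).1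
    have h4 : A ≤ Z + o := by linarith
    nlinarith
  · have hk' : (0 : ℝ) < k := by exact_mod_cast hk
    have h1 : k * A ^ 2 ≤ k * (s2 + D - 2 * sz + Z ^ 2) := by
      nlinarith [sq_nonneg (A + s1 - Z)]
    have h2 := le_of_mul_le_mul_left h1 hk'
    nlinarith

theorem structure_lemma {G : SimpleGraph V} {x : V → ℝ} (hx : ∀ v, 0 ≤ x v) {r i : ℕ}
    (hG : G.CliqueFree (r + 1)) (hi : i < r) {u v : V} (hu : u ∈ Cq G x i)
    (hv : v ∈ Cq G x i) (huv : G.Adj u v) {A o : ℝ} (hA : 0 ≤ A) (ho : 0 ≤ o)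
    (hO : ∑ j ∈ Finset.Ico (i + 1) r, (aq G x j - A) ^ 2 ≤ o ^ 2) :
    A ^ 2 ≤ (inn G x i u + tq G x i u + inn G x i v + tq G x i v + o) ^ 2 +
      ∑ j ∈ Finset.Ico (i + 1) r, (Eq G x j + 2 * Tq G x j) := by
  set S := Vq G x i with hS
  set S' := Vq G x (i + 1) with hS'
  have hSS : S' ⊆ S := Vq_succ_subset G x i
  have huS : u ∈ S := (Finset.mem_sdiff.1 hu).1
  have hvS : v ∈ S := (Finset.mem_sdiff.1 hv).1
  set U := nb G (nb G S' u) v with hU
  have hUS' : U ⊆ S' := (nb_subset G _ v).trans (nb_subset G _ u)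
  have hfree : G.CliqueFreeOn (U : Set V) (r - 1 - i) := by
    have h1 := Vq_cliqueFreeOn x hG hi.le
    have h2 : r - i + 1 = (r - 1 - i) + 1 + 1 := by omega
    rw [h2] at h1
    have h3 := cliqueFreeOn_nb huS h1
    have h4 : v ∈ nb G S u := mem_nb.2 ⟨hvS, huv⟩
    have h5 := cliqueFreeOn_nb h4 h3
    refine SimpleGraph.CliqueFreeOn.subset G ?_ h5
    intro w hw
    have h6 := mem_nb.1 (Finset.mem_coe.1 hw)
    have h7 := mem_nb.1 h6.1
    exact Finset.mem_coe.2 (mem_nb.2 ⟨mem_nb.2 ⟨hSS h7.1, h7.2⟩, h6.2⟩)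
  -- there is at least one later class
  obtain ⟨k, hk⟩ : ∃ k, r - 1 - i = k + 1 := by
    refine ⟨r - 1 - i - 1, ?_⟩
    rcases Nat.eq_zero_or_pos (r - 1 - i) with h0 | h0
    · exfalso
      rw [h0] at hfree
      refine hfree (t := ∅) (by simp) ?_
      rw [SimpleGraph.isNClique_iff]
      simp
    · omega
  rw [hk] at hfree
  have hcard : (Finset.Ico (i + 1) r).card = k + 1 := by
    rw [Nat.card_Ico]; omega
  have hMS := weighted_turan hx k U hfree
  set Z := S' \ U with hZ
  set z : ℕ → ℝ := fun j => ∑ w ∈ Cq G x j, if w ∈ Z then x w else 0 with hz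
  have hz0 : ∀ j ∈ Finset.Ico (i + 1) r, 0 ≤ z j := fun j _ =>
    Finset.sum_nonneg fun w _ => by split_ifs; exacts [hx w, le_rfl]
  have hi1 : i + 1 ≤ r := hi
  have hZsum : wt x Z = ∑ j ∈ Finset.Ico (i + 1) r, z j := by
    rw [hz, ← sum_Vq x hG (fun w => if w ∈ Z then x w else 0) hi1]
    have hsub : Z ⊆ S' := Finset.sdiff_subset
    unfold wt
    rw [← Finset.sum_subset hsub]
    · exact Finset.sum_congr rfl fun w hw => by simp [hw]
    · intro w _ hw; simp [hw]
  have hSsum : wt x S' = ∑ j ∈ Finset.Ico (i + 1) r, aq G x j := by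
    have := sum_Vq x hG x hi1
    exact this
  have hD : 0 ≤ ∑ j ∈ Finset.Ico (i + 1) r, (Eq G x j + 2 * Tq G x j) :=
    Finset.sum_nonneg fun j _ => by
      have := Eq_nonneg G hx j; have := Tq_nonneg G hx j; linarith
  have hQS : Qf G x S' = ∑ j ∈ Finset.Ico (i + 1) r, aq G x j ^ 2 +
      ∑ j ∈ Finset.Ico (i + 1) r, (Eq G x j + 2 * Tq G x j) := by
    rw [← Finset.sum_add_distrib]; exact Qf_sum x hG hi1
  -- the weight of `Z`
  have hZb : wt x Z ≤ inn G x i u + tq G x i u + inn G x i v + tq G x i v := by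
    have h1 : wt x Z ≤ ∑ w ∈ S', ((1 - W G u w) + (1 - W G v w)) * x w := by
      unfold wt
      have hsub : Z ⊆ S' := Finset.sdiff_subset
      calc ∑ w ∈ Z, x w ≤ ∑ w ∈ Z, ((1 - W G u w) + (1 - W G v w)) * x w := by
            refine Finset.sum_le_sum fun w hw => ?_
            have hw1 := Finset.mem_sdiff.1 hw
            have hw2 : ¬ G.Adj u w ∨ ¬ G.Adj v w := by
              by_contra hcon
              push Not at hcon
              exact hw1.2 (mem_nb.2 ⟨mem_nb.2 ⟨hw1.1, hcon.1⟩, hcon.2⟩)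
            have := hx w
            rcases hw2 with h | h
            · rw [W_of_not_adj h]
              have := W_le_one G v w
              nlinarith
            · rw [W_of_not_adj h]
              have := W_le_one G u w
              nlinarith
        _ ≤ _ := by
            refine Finset.sum_le_sum_of_subset_of_nonneg hsub fun w _ _ => ?_
            have := W_le_one G v w
            have := W_le_one G u w
            exact mul_nonneg (by linarith) (hx w)
    have h2 : ∑ w ∈ S', ((1 - W G u w) + (1 - W G v w)) * x w =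
        2 * wt x S' - deg G x u S' - deg G x v S' := by
      unfold wt deg
      rw [Finset.mul_sum, ← Finset.sum_sub_distrib, ← Finset.sum_sub_distrib]
      exact Finset.sum_congr rfl fun w _ => by ring
    have h3 : deg G x u S = deg G x u S' + inn G x i u := deg_split G x hSS u
    have h4 : deg G x v S = deg G x v S' + inn G x i v := deg_split G x hSS v
    have h5 : tq G x i u = wt x S' - deg G x u S := rfl
    have h6 : tq G x i v = wt x S' - deg G x v S := rfl
    linarith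
  -- the weight of nonadjacent pairs drops
  have hQU : Qf G x U ≤ Qf G x S' - 2 * ∑ j ∈ Finset.Ico (i + 1) r, z j * aq G x j +
      wt x Z ^ 2 := by
    have h1 := Qf_split G x hUS'
    have h2 := qf_nonneg G hx (S' \ U)
    have h3 : ∑ j ∈ Finset.Ico (i + 1) r, z j * aq G x j ≤
        ∑ w ∈ S' \ U, x w * (wt x S' - deg G x w S') := by
      have e1 : ∑ w ∈ S' \ U, x w * (wt x S' - deg G x w S') =
          ∑ w ∈ S', if w ∈ Z then x w * (wt x S' - deg G x w S') else 0 := by
        have hsub : Z ⊆ S' := Finset.sdiff_subset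
        rw [← Finset.sum_subset hsub]
        · exact Finset.sum_congr rfl fun w hw => by simp [hw]
        · intro w _ hw; simp [hw]
      rw [e1, sum_Vq x hG _ hi1]
      refine Finset.sum_le_sum fun j hj => ?_
      rw [hz]
      simp only
      rw [Finset.sum_mul]
      refine Finset.sum_le_sum fun w hw => ?_
      split_ifs with hwZ
      · refine mul_le_mul_of_nonneg_left ?_ (hx w)
        have hj1 : i + 1 ≤ j := (Finset.mem_Ico.1 hj).1
        have hsub : Vq G x j ⊆ S' := Vq_anti G x hj1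
        have q1 := deg_split G x hsub w
        have q2 := wt_split x hsub
        have q3 := deg_le_wt G hx w (S' \ Vq G x j)
        have q4 := tq_nonneg G x j hw
        have q5 : wt x (Vq G x j) = wt x (Vq G x (j + 1)) + aq G x j :=
          wt_split x (Vq_succ_subset G x j)
        unfold tq at q4
        linarith
      · simp
    have h4 : wt x (S' \ U) = wt x Z := rfl
    rw [h4] at h1
    linarith
  have hWU : wt x U = ∑ j ∈ Finset.Ico (i + 1) r, aq G x j - ∑ j ∈ Finset.Ico (i + 1) r, z j := by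
    have := wt_split x hUS'
    rw [← hSsum, ← hZsum, this]; ring
  have hfin := structure_algebra (Finset.Ico (i + 1) r) (aq G x) z hcard hA ho hD hz0 hO (by
    rw [← hWU]
    refine hMS.trans (mul_le_mul_of_nonneg_left ?_ (Nat.cast_nonneg k))
    rw [hQS, hZsum] at hQU
    linarith)
  rw [hZsum] at hZb
  have hzz : 0 ≤ ∑ j ∈ Finset.Ico (i + 1) r, z j := Finset.sum_nonneg hz0
  have : (∑ j ∈ Finset.Ico (i + 1) r, z j + o) ^ 2 ≤
      (inn G x i u + tq G x i u + inn G x i v + tq G x i v + o) ^ 2 :=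
    pow_le_pow_left₀ (by linarith) (by linarith) 2
  linarith

end Pool.Agent.Work.MP_f94384_co
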