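import Pool.Agent.Work.MP_f94384_co.Structure

/-!
Test functions supported on the classes of the greedy partition.
-/

open Finset

set_option linter.unusedSectionVars false
set_option linter.unusedDecidableInType false
set_option linter.unusedFintypeInType false

namespace Pool.Agent.Work.MP_f94384_co

variable {V : Type*} [Fintype V] [DecidableEq V]

/-- the shifted form on functions supported on a subset of the whole vertex set -/
theorem psd_class (G : SimpleGraph V) {x : V → ℝ} {l μ : ℝ}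
    (hx1 : sq univ x = 1) (hxe : ∀ v, deg G x v univ = l * x v)
    (hpsd : ∀ f, -μ * sq univ f ≤ qf G univ f) (C : Finset V) (f : V → ℝ) :
    (l + μ) * (∑ u ∈ C, x u * f u) ^ 2 - μ * sq C f ≤ qf G C f := by
  have h := psd_shift G hx1 (fun v _ => hxe v) hpsd (fun u => if u ∈ C then f u else 0)
  rw [qf_restrict G (Finset.subset_univ C), sq_restrict (Finset.subset_univ C)] at h
  have h2 : ∑ u, x u * (if u ∈ C then f u else 0) = ∑ u ∈ C, x u * f u := by
    rw [← Finset.sum_subset (Finset.subset_univ C)]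
    · exact Finset.sum_congr rfl fun u hu => by simp [hu]
    · intro u _ hu; simp [hu]
  rw [h2] at h
  exact h

/-- the test with `x (1 - β)` on one class -/
theorem class_test (G : SimpleGraph V) {x : V → ℝ} {l μ : ℝ}
    (hx1 : sq univ x = 1) (hxe : ∀ v, deg G x v univ = l * x v)
    (hpsd : ∀ f, -μ * sq univ f ≤ qf G univ f) (C : Finset V) (β : V → ℝ) :
    (l + μ) * (sq C x - ∑ u ∈ C, x u ^ 2 * β u) ^ 2 -
      μ * (sq C x - 2 * ∑ u ∈ C, x u ^ 2 * β u + ∑ u ∈ C, x u ^ 2 * β u ^ 2) ≤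
      qf G C x - (2 * ∑ u ∈ C, x u * β u * deg G x u C - qf G C (fun u => x u * β u)) := by
  have h := psd_class G hx1 hxe hpsd C (fun u => x u + (-1) * (x u * β u))
  rw [qf_add, qf_smul, bf_symm] at h
  have e1 : ∑ u ∈ C, x u * (x u + (-1) * (x u * β u)) = sq C x - ∑ u ∈ C, x u ^ 2 * β u := by
    unfold sq; rw [← Finset.sum_sub_distrib]; exact Finset.sum_congr rfl fun u _ => by ring
  have e2 : sq C (fun u => x u + (-1) * (x u * β u)) =
      sq C x - 2 * ∑ u ∈ C, x u ^ 2 * β u + ∑ u ∈ C, x u ^ 2 * β u ^ 2 := by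
    unfold sq; rw [Finset.mul_sum, ← Finset.sum_sub_distrib, ← Finset.sum_add_distrib]
    exact Finset.sum_congr rfl fun u _ => by ring
  have e3 : bf G C (fun u => (-1) * (x u * β u)) x = -∑ u ∈ C, x u * β u * deg G x u C := by
    unfold bf; rw [← Finset.sum_neg_distrib]; exact Finset.sum_congr rfl fun u _ => by ring
  rw [e1, e2, e3] at h
  linarith

/-- the sum of the class tests -/
theorem sum_test (G : SimpleGraph V) {x : V → ℝ} {l μ : ℝ} {r : ℕ} (hr : 0 < r)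
    (hG : G.CliqueFree (r + 1)) (hlμ : 0 ≤ l + μ)
    (hx1 : sq univ x = 1) (hxe : ∀ v, deg G x v univ = l * x v)
    (hpsd : ∀ f, -μ * sq univ f ≤ qf G univ f) (β : ℕ → V → ℝ) :
    (l + μ) * (1 - ∑ j ∈ Finset.Ico 0 r, ∑ u ∈ Cq G x j, x u ^ 2 * β j u) ^ 2 -
      r * (μ * (1 - 2 * ∑ j ∈ Finset.Ico 0 r, ∑ u ∈ Cq G x j, x u ^ 2 * β j u +
        ∑ j ∈ Finset.Ico 0 r, ∑ u ∈ Cq G x j, x u ^ 2 * β j u ^ 2)) ≤
      r * (∑ j ∈ Finset.Ico 0 r, Eq G x j -
        ∑ j ∈ Finset.Ico 0 r, (2 * ∑ u ∈ Cq G x j, x u * β j u * inn G x j u -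
          qf G (Cq G x j) (fun u => x u * β j u))) := by
  have h := Finset.sum_le_sum fun j (_ : j ∈ Finset.Ico 0 r) =>
    class_test G hx1 hxe hpsd (Cq G x j) (β j)
  rw [Finset.sum_sub_distrib, ← Finset.mul_sum, ← Finset.mul_sum, Finset.sum_add_distrib,
    Finset.sum_sub_distrib, ← Finset.mul_sum, Finset.sum_sub_distrib] at h
  have hs : ∑ j ∈ Finset.Ico 0 r, sq (Cq G x j) x = 1 := by
    have := sum_Vq x hG (fun v => x v ^ 2) (Nat.zero_le r)
    rw [← hx1]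
    exact this.symm
  rw [hs] at h
  set B := ∑ j ∈ Finset.Ico 0 r, ∑ u ∈ Cq G x j, x u ^ 2 * β j u with hB
  have hcs : (1 - B) ^ 2 ≤ r *
      ∑ j ∈ Finset.Ico 0 r, (sq (Cq G x j) x - ∑ u ∈ Cq G x j, x u ^ 2 * β j u) ^ 2 := by
    have h1 := sq_sum_le_card_mul_sum_sq (s := Finset.Ico 0 r)
      (f := fun j => sq (Cq G x j) x - ∑ u ∈ Cq G x j, x u ^ 2 * β j u)
    rw [Finset.sum_sub_distrib, hs, Nat.card_Ico, Nat.sub_zero] at h1
    exact h1
  have hr' : (0 : ℝ) < r := by exact_mod_cast hr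
  have h2 := mul_le_mul_of_nonneg_left hcs hlμ
  have h3 := mul_le_mul_of_nonneg_left h hr'.le
  have h4 : ∑ j ∈ Finset.Ico 0 r, qf G (Cq G x j) x = ∑ j ∈ Finset.Ico 0 r, Eq G x j := rfl
  rw [h4] at h3
  have h5 : ∀ j, ∑ u ∈ Cq G x j, x u * β j u * deg G x u (Cq G x j) =
      ∑ u ∈ Cq G x j, x u * β j u * inn G x j u := fun j => rfl
  simp_rw [h5] at h3
  nlinarith

/-- the defect identity -/
theorem defect_identity (G : SimpleGraph V) {x : V → ℝ} {l : ℝ} {r : ℕ} (hr : 0 < r)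
    (hG : G.CliqueFree (r + 1)) (hx1 : sq univ x = 1) (hxe : ∀ v, deg G x v univ = l * x v) :
    (1 - 1 / (r : ℝ)) * wt x univ ^ 2 = l + ∑ j ∈ Finset.Ico 0 r, (aq G x j - wt x univ / r) ^ 2 +
      2 * ∑ j ∈ Finset.Ico 0 r, Tq G x j + ∑ j ∈ Finset.Ico 0 r, Eq G x j := by
  have hr' : (0 : ℝ) < r := by exact_mod_cast hr
  have h1 := Qf_sum x hG (Nat.zero_le r)
  have h2 : Vq G x 0 = univ := rfl
  rw [h2] at h1
  have h3 : qf G univ x = l := by
    unfold qf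
    rw [Finset.sum_congr rfl fun v _ => by rw [hxe v]]
    have : ∑ u, x u * (l * x u) = l * sq univ x := by
      unfold sq; rw [Finset.mul_sum]; exact Finset.sum_congr rfl fun u _ => by ring
    rw [this, hx1, mul_one]
  have h4 : wt x univ = ∑ j ∈ Finset.Ico 0 r, aq G x j := sum_Vq x hG x (Nat.zero_le r)
  have h5 : ∑ j ∈ Finset.Ico 0 r, (aq G x j - wt x univ / r) ^ 2 =
      ∑ j ∈ Finset.Ico 0 r, aq G x j ^ 2 - wt x univ ^ 2 / r := by
    have : ∀ j ∈ Finset.Ico 0 r, (aq G x j - wt x univ / r) ^ 2 =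
        aq G x j ^ 2 - 2 * (wt x univ / r) * aq G x j + (wt x univ / r) ^ 2 := fun j _ => by ring
    rw [Finset.sum_congr rfl this, Finset.sum_add_distrib, Finset.sum_sub_distrib,
      ← Finset.mul_sum, ← h4, Finset.sum_const, Nat.card_Ico, Nat.sub_zero, nsmul_eq_mul]
    field_simp
    ring
  rw [Finset.sum_add_distrib, Finset.sum_add_distrib, ← Finset.mul_sum] at h1
  unfold Qf at h1
  rw [h3] at h1
  rw [h5]
  have : (1 - 1 / (r : ℝ)) * wt x univ ^ 2 = wt x univ ^ 2 - wt x univ ^ 2 / r := by ring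
  rw [this]
  linarith

/-- Cauchy–Schwarz inside a class -/
theorem qf_mul_sq_le (G : SimpleGraph V) {x : V → ℝ} (hx : ∀ v, 0 ≤ x v) (C : Finset V)
    (g : V → ℝ) :
    qf G C (fun u => x u * g u) ^ 2 ≤ qf G C x * (∑ u ∈ C, x u * g u ^ 2) ^ 2 := by
  rw [qf_eq, qf_eq]
  rw [← Finset.sum_product', ← Finset.sum_product']
  have h1 : (∑ p ∈ C ×ˢ C, W G p.1 p.2 * (x p.1 * g p.1) * (x p.2 * g p.2)) ^ 2 ≤
      (∑ p ∈ C ×ˢ C, W G p.1 p.2 * x p.1 * x p.2) *
      (∑ p ∈ C ×ˢ C, (x p.1 * g p.1 ^ 2) * (x p.2 * g p.2 ^ 2)) := by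
    have := Finset.sum_sq_le_sum_mul_sum_of_sq_le_mul (C ×ˢ C)
      (r := fun p => W G p.1 p.2 * (x p.1 * g p.1) * (x p.2 * g p.2))
      (f := fun p => W G p.1 p.2 * x p.1 * x p.2)
      (g := fun p => (x p.1 * g p.1 ^ 2) * (x p.2 * g p.2 ^ 2))
      (fun p _ => mul_nonneg (mul_nonneg (W_nonneg G _ _) (hx _)) (hx _))
      (fun p _ => mul_nonneg (mul_nonneg (hx _) (sq_nonneg _)) (mul_nonneg (hx _) (sq_nonneg _)))
      (fun p _ => by
        have h0 := W_nonneg G p.1 p.2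
        have h1 := W_le_one G p.1 p.2
        have e1 : (W G p.1 p.2 * (x p.1 * g p.1) * (x p.2 * g p.2)) ^ 2 =
          W G p.1 p.2 * (W G p.1 p.2 * ((x p.1 * g p.1) * (x p.2 * g p.2)) ^ 2) := by ring
        have e2 : W G p.1 p.2 * x p.1 * x p.2 * ((x p.1 * g p.1 ^ 2) * (x p.2 * g p.2 ^ 2)) =
          W G p.1 p.2 * (1 * ((x p.1 * g p.1) * (x p.2 * g p.2)) ^ 2) := by ring
        rw [e1, e2]
        exact mul_le_mul_of_nonneg_left (mul_le_mul_of_nonneg_right h1 (sq_nonneg _)) h0)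
    exact this
  have h2 : ∑ p ∈ C ×ˢ C, (x p.1 * g p.1 ^ 2) * (x p.2 * g p.2 ^ 2) =
      (∑ u ∈ C, x u * g u ^ 2) ^ 2 := by
    rw [pow_two, Finset.sum_mul_sum, ← Finset.sum_product']
  rw [h2] at h1
  exact h1

end Pool.Agent.Work.MP_f94384_co
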