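import Pool.Agent.Work.MP_f94384_co.Tests

/-!
Weights on the classes, the edge bound inside a class, and the bookkeeping of the tests.
-/

open Finset

set_option linter.unusedSectionVars false
set_option linter.unusedDecidableInType false
set_option linter.unusedFintypeInType false

namespace Pool.Agent.Work.MP_f94384_co

section abstract

/-- tail sums -/
def tail (r : ℕ) (e : ℕ → ℝ) (j : ℕ) : ℝ := ∑ i ∈ Finset.Ico j r, e i

theorem tail_rec {r : ℕ} (e : ℕ → ℝ) {j : ℕ} (h : j < r) :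
    tail r e j = e j + tail r e (j + 1) := by
  unfold tail; rw [Finset.sum_eq_sum_Ico_succ_bot h]

theorem tail_top (r : ℕ) (e : ℕ → ℝ) : tail r e r = 0 := by simp [tail]

theorem tail_nonneg {r : ℕ} {e : ℕ → ℝ} (he : ∀ j, 0 ≤ e j) (j : ℕ) : 0 ≤ tail r e j :=
  Finset.sum_nonneg fun i _ => he i

theorem cube_step {a b : ℝ} (hb : 0 ≤ b) (hab : b ≤ a) :
    (2 / 3) * (a ^ 3 - b ^ 3) ≤ (a ^ 2 - b ^ 2) * a := by
  nlinarith [mul_nonneg (sq_nonneg (a - b)) (by linarith : 0 ≤ a + 2 * b)]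

theorem riemann_tail {r : ℕ} {e : ℕ → ℝ} (he : ∀ j, 0 ≤ e j) {A : ℝ} (hA : 0 ≤ A) {j : ℕ}
    (hj : j ≤ r) (hs : tail r e j ≤ A ^ 2) :
    (2 / 3) * (A ^ 3 - Real.sqrt (A ^ 2 - tail r e j) ^ 3) ≤
      ∑ i ∈ Finset.Ico j r, e i * Real.sqrt (A ^ 2 - tail r e (i + 1)) := by
  induction hj using Nat.decreasingInduction with
  | self => rw [tail_top]; simp [Real.sqrt_sq hA]
  | of_succ j hj ih =>
    have h1 := tail_rec e hj
    have h2 := he j
    have ih' := ih (by linarith)
    rw [Finset.sum_eq_sum_Ico_succ_bot hj]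
    set a := Real.sqrt (A ^ 2 - tail r e (j + 1)) with ha
    set b := Real.sqrt (A ^ 2 - tail r e j) with hb
    have ha2 : a ^ 2 = A ^ 2 - tail r e (j + 1) := Real.sq_sqrt (by linarith)
    have hb2 : b ^ 2 = A ^ 2 - tail r e j := Real.sq_sqrt (by linarith)
    have hb0 : 0 ≤ b := Real.sqrt_nonneg _
    have hab : b ≤ a := Real.sqrt_le_sqrt (by linarith)
    have h3 := cube_step hb0 hab
    have h4 : e j = a ^ 2 - b ^ 2 := by rw [ha2, hb2]; linarith
    rw [h4]
    linarith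

theorem exists_theta {r : ℕ} {e : ℕ → ℝ} (he : ∀ j, 0 ≤ e j) {A ρ : ℝ} (hA : 0 ≤ A)
    (hρ : 0 ≤ ρ) (hρ1 : ρ ≤ 1) (hbig : A ^ 2 * (1 - ρ ^ 2) < tail r e 0) :
    ∃ ϑ : ℕ → ℝ, (∀ j, 0 ≤ ϑ j) ∧ (∀ j, ϑ j ≤ 1) ∧
      (∀ j < r, ϑ j ≠ 0 → tail r e (j + 1) ≤ A ^ 2 * (1 - ρ ^ 2)) ∧
      ∑ j ∈ Finset.Ico 0 r, ϑ j * e j = A ^ 2 * (1 - ρ ^ 2) ∧
      (2 / 3) * (A ^ 3 - (A * ρ) ^ 3) ≤
        ∑ j ∈ Finset.Ico 0 r, ϑ j * e j * Real.sqrt (A ^ 2 - tail r e (j + 1)) := by
  set L := A ^ 2 * (1 - ρ ^ 2) with hL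
  have hρ2 : ρ ^ 2 ≤ 1 := pow_le_one₀ hρ hρ1
  have hL0 : 0 ≤ L := mul_nonneg (sq_nonneg _) (by linarith)
  have hLA : L ≤ A ^ 2 := by nlinarith [sq_nonneg A, sq_nonneg ρ]
  -- the critical index
  have hex : ∃ j, tail r e j ≤ L := ⟨r, by rw [tail_top]; exact hL0⟩
  classical
  set j1 := Nat.find hex with hj1
  have hj1s : tail r e j1 ≤ L := Nat.find_spec hex
  have hj1r : j1 ≤ r := Nat.find_min' hex (by rw [tail_top]; exact hL0)
  have hj1pos : 0 < j1 := by
    rcases Nat.eq_zero_or_pos j1 with h | h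
    · rw [h] at hj1s; exact absurd hbig (not_lt.2 hj1s)
    · exact h
  obtain ⟨j0, hj0⟩ : ∃ j0, j1 = j0 + 1 := ⟨j1 - 1, by omega⟩
  have hj0n : L < tail r e j0 := by
    have := Nat.find_min hex (m := j0) (by omega)
    exact not_le.1 this
  rw [hj0] at hj1s hj1r
  have hrec := tail_rec e (show j0 < r by omega)
  have he0 : 0 < e j0 := by linarith
  set c := (L - tail r e (j0 + 1)) / e j0 with hc
  have hc0 : 0 ≤ c := div_nonneg (by linarith) he0.le
  have hc1 : c ≤ 1 := by rw [hc, div_le_one he0]; linarith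
  have hce : c * e j0 = L - tail r e (j0 + 1) := by rw [hc]; field_simp
  refine ⟨fun j => if j < j0 then 0 else if j = j0 then c else 1, ?_, ?_, ?_, ?_, ?_⟩
  · intro j; dsimp only; split_ifs <;> linarith
  · intro j; dsimp only; split_ifs <;> linarith
  · intro j hj hne
    dsimp only at hne
    have hge : j0 ≤ j := by
      by_contra h
      rw [if_pos (not_le.1 h)] at hne
      exact hne rfl
    have : tail r e (j + 1) ≤ tail r e (j0 + 1) := by
      unfold tail
      exact Finset.sum_le_sum_of_subset_of_nonneg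
        (Finset.Ico_subset_Ico_left (by omega)) fun i _ _ => he i
    linarith
  · have hsplit : ∀ g : ℕ → ℝ, ∑ j ∈ Finset.Ico 0 r,
        (if j < j0 then (0:ℝ) else if j = j0 then c else 1) * g j =
        c * g j0 + ∑ j ∈ Finset.Ico (j0 + 1) r, g j := by
      intro g
      rw [← Finset.sum_Ico_consecutive _ (Nat.zero_le j0) (by omega : j0 ≤ r),
        Finset.sum_eq_sum_Ico_succ_bot (by omega : j0 < r)]
      have e1 : ∑ j ∈ Finset.Ico 0 j0,
          (if j < j0 then (0:ℝ) else if j = j0 then c else 1) * g j = 0 := by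
        refine Finset.sum_eq_zero fun j hj => ?_
        rw [if_pos (Finset.mem_Ico.1 hj).2]; ring
      have e2 : ∑ j ∈ Finset.Ico (j0 + 1) r,
          (if j < j0 then (0:ℝ) else if j = j0 then c else 1) * g j =
          ∑ j ∈ Finset.Ico (j0 + 1) r, g j := by
        refine Finset.sum_congr rfl fun j hj => ?_
        have := (Finset.mem_Ico.1 hj).1
        rw [if_neg (by omega), if_neg (by omega)]; ring
      rw [e1, e2]; simp
    rw [hsplit, hce]
    unfold tail; ring
  · have hsplit : ∀ g : ℕ → ℝ, ∑ j ∈ Finset.Ico 0 r,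
        (if j < j0 then (0:ℝ) else if j = j0 then c else 1) * e j * g j =
        c * e j0 * g j0 + ∑ j ∈ Finset.Ico (j0 + 1) r, e j * g j := by
      intro g
      rw [← Finset.sum_Ico_consecutive _ (Nat.zero_le j0) (by omega : j0 ≤ r),
        Finset.sum_eq_sum_Ico_succ_bot (by omega : j0 < r)]
      have e1 : ∑ j ∈ Finset.Ico 0 j0,
          (if j < j0 then (0:ℝ) else if j = j0 then c else 1) * e j * g j = 0 := by
        refine Finset.sum_eq_zero fun j hj => ?_
        rw [if_pos (Finset.mem_Ico.1 hj).2]; ring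
      have e2 : ∑ j ∈ Finset.Ico (j0 + 1) r,
          (if j < j0 then (0:ℝ) else if j = j0 then c else 1) * e j * g j =
          ∑ j ∈ Finset.Ico (j0 + 1) r, e j * g j := by
        refine Finset.sum_congr rfl fun j hj => ?_
        have := (Finset.mem_Ico.1 hj).1
        rw [if_neg (by omega), if_neg (by omega)]; ring
      rw [e1, e2]; simp
    rw [hsplit]
    have h1 := riemann_tail he hA hj1r (by linarith)
    set a := Real.sqrt (A ^ 2 - tail r e (j0 + 1)) with ha
    have ha2 : a ^ 2 = A ^ 2 - tail r e (j0 + 1) := Real.sq_sqrt (by linarith)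
    have hb0 : 0 ≤ A * ρ := mul_nonneg hA hρ
    have hab : A * ρ ≤ a := by
      apply Real.le_sqrt_of_sq_le
      nlinarith
    have h3 := cube_step hb0 hab
    have h4 : c * e j0 = a ^ 2 - (A * ρ) ^ 2 := by rw [hce, ha2, hL]; ring
    rw [h4]
    linarith

end abstract

variable {V : Type*} [Fintype V] [DecidableEq V]

/-- second moment of the inner degrees -/
noncomputable def Hq (G : SimpleGraph V) (x : V → ℝ) (i : ℕ) : ℝ :=
  ∑ u ∈ Cq G x i, x u * inn G x i u ^ 2

theorem Hq_nonneg (G : SimpleGraph V) {x : V → ℝ} (hx : ∀ v, 0 ≤ x v) (i : ℕ) :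
    0 ≤ Hq G x i :=
  Finset.sum_nonneg fun u _ => mul_nonneg (hx u) (sq_nonneg _)

/-- total defect of a class -/
noncomputable def eq' (G : SimpleGraph V) (x : V → ℝ) (i : ℕ) : ℝ := Eq G x i + 2 * Tq G x i

theorem eq'_nonneg (G : SimpleGraph V) {x : V → ℝ} (hx : ∀ v, 0 ≤ x v) (i : ℕ) :
    0 ≤ eq' G x i := by
  have := Eq_nonneg G hx i; have := Tq_nonneg G hx i; unfold eq'; linarith

theorem aq_le_add {G : SimpleGraph V} {x : V → ℝ} {r : ℕ} {A o : ℝ} (ho : 0 ≤ o)
    (hO : ∑ j ∈ Finset.Ico 0 r, (aq G x j - A) ^ 2 ≤ o ^ 2) {j : ℕ} (hj : j < r) :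
    aq G x j ≤ A + o := by
  have h1 : (aq G x j - A) ^ 2 ≤ o ^ 2 :=
    (Finset.single_le_sum (f := fun j => (aq G x j - A) ^ 2) (fun _ _ => sq_nonneg _)
      (Finset.mem_Ico.2 ⟨Nat.zero_le j, hj⟩)).trans hO
  have := (abs_le_of_sq_le_sq' h1 ho).2
  linarith

/-- edges inside a class force a large second moment of the inner degrees -/
theorem edge_bound {G : SimpleGraph V} {x : V → ℝ} (hx : ∀ v, 0 ≤ x v) {r i : ℕ}
    (hG : G.CliqueFree (r + 1)) (hi : i < r) {A o : ℝ} (hA : 0 ≤ A) (ho : 0 ≤ o)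
    (hO : ∑ j ∈ Finset.Ico 0 r, (aq G x j - A) ^ 2 ≤ o ^ 2)
    (hs : tail r (eq' G x) (i + 1) ≤ A ^ 2) :
    (Real.sqrt (A ^ 2 - tail r (eq' G x) (i + 1)) - o) * Eq G x i ≤
      2 * Hq G x i + 2 * (A + o) * Tq G x i := by
  set ρ := Real.sqrt (A ^ 2 - tail r (eq' G x) (i + 1)) with hρ
  have hρ2 : ρ ^ 2 = A ^ 2 - tail r (eq' G x) (i + 1) := Real.sq_sqrt (by linarith)
  have hρ0 : 0 ≤ ρ := Real.sqrt_nonneg _
  have hO' : ∑ j ∈ Finset.Ico (i + 1) r, (aq G x j - A) ^ 2 ≤ o ^ 2 :=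
    (Finset.sum_le_sum_of_subset_of_nonneg (Finset.Ico_subset_Ico_left (Nat.zero_le _))
      fun _ _ _ => sq_nonneg _).trans hO
  set C := Cq G x i with hC
  have h1 : (ρ - o) * Eq G x i = ∑ u ∈ C, ∑ v ∈ C, (W G u v * x u * x v) * (ρ - o) := by
    unfold Eq
    rw [qf_eq, mul_comm, Finset.sum_mul]
    exact Finset.sum_congr rfl fun u _ => by rw [Finset.sum_mul]
  have h2 : ∑ u ∈ C, ∑ v ∈ C, (W G u v * x u * x v) * (ρ - o) ≤
      ∑ u ∈ C, ∑ v ∈ C, (W G u v * x u * x v) *
        ((inn G x i u + tq G x i u) + (inn G x i v + tq G x i v)) := by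
    refine Finset.sum_le_sum fun u hu => Finset.sum_le_sum fun v hv => ?_
    by_cases huv : G.Adj u v
    · refine mul_le_mul_of_nonneg_left ?_
        (mul_nonneg (mul_nonneg (W_nonneg G u v) (hx u)) (hx v))
      have h3 := structure_lemma hx hG hi hu hv huv hA ho hO'
      have h4 : ∑ j ∈ Finset.Ico (i + 1) r, (Eq G x j + 2 * Tq G x j) =
          tail r (eq' G x) (i + 1) := rfl
      rw [h4] at h3
      have hb : 0 ≤ inn G x i u + tq G x i u + inn G x i v + tq G x i v := by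
        have a1 := inn_nonneg G hx i u
        have a2 := inn_nonneg G hx i v
        have a3 := tq_nonneg G x i hu
        have a4 := tq_nonneg G x i hv
        linarith
      have h5 : ρ ^ 2 ≤ (inn G x i u + tq G x i u + inn G x i v + tq G x i v + o) ^ 2 := by
        rw [hρ2]; linarith
      have h6 := (abs_le_of_sq_le_sq' h5 (by linarith)).2
      linarith
    · rw [W_of_not_adj huv]; simp
  have h3 : ∑ u ∈ C, ∑ v ∈ C, (W G u v * x u * x v) *
        ((inn G x i u + tq G x i u) + (inn G x i v + tq G x i v)) =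
      2 * ∑ u ∈ C, x u * (inn G x i u + tq G x i u) * inn G x i u := by
    have e1 : ∀ u ∈ C, ∑ v ∈ C, (W G u v * x u * x v) *
        ((inn G x i u + tq G x i u) + (inn G x i v + tq G x i v)) =
        x u * (inn G x i u + tq G x i u) * inn G x i u +
        ∑ v ∈ C, W G u v * x u * (x v * (inn G x i v + tq G x i v)) := by
      intro u _
      have : x u * (inn G x i u + tq G x i u) * inn G x i u =
          ∑ v ∈ C, (W G u v * x u * x v) * (inn G x i u + tq G x i u) := by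
        have h7 : inn G x i u = ∑ v ∈ C, W G u v * x v := rfl
        conv_lhs => rw [h7]
        rw [Finset.mul_sum]
        exact Finset.sum_congr rfl fun v _ => by rw [← h7]; ring
      rw [this, ← Finset.sum_add_distrib]
      exact Finset.sum_congr rfl fun v _ => by ring
    rw [Finset.sum_congr rfl e1, Finset.sum_add_distrib]
    have e2 : ∑ u ∈ C, ∑ v ∈ C, W G u v * x u * (x v * (inn G x i v + tq G x i v)) =
        ∑ u ∈ C, x u * (inn G x i u + tq G x i u) * inn G x i u := by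
      rw [Finset.sum_comm]
      refine Finset.sum_congr rfl fun v _ => ?_
      have h7 : inn G x i v = ∑ u ∈ C, W G v u * x u := rfl
      conv_rhs => rw [h7]
      rw [Finset.mul_sum]
      exact Finset.sum_congr rfl fun u _ => by rw [← h7, W_symm G u v]; ring
    rw [e2]; ring
  have h4 : ∑ u ∈ C, x u * (inn G x i u + tq G x i u) * inn G x i u ≤
      Hq G x i + (A + o) * Tq G x i := by
    unfold Hq Tq
    rw [Finset.mul_sum, ← Finset.sum_add_distrib]
    refine Finset.sum_le_sum fun u hu => ?_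
    have a1 := inn_le G hx i u
    have a2 := aq_le_add ho hO hi
    have a3 := tq_nonneg G x i hu
    have a4 := hx u
    have a5 : x u * tq G x i u * inn G x i u ≤ x u * tq G x i u * (A + o) :=
      mul_le_mul_of_nonneg_left (by linarith) (mul_nonneg a4 a3)
    nlinarith
  rw [h1]
  refine h2.trans ?_
  rw [h3]
  nlinarith

end Pool.Agent.Work.MP_f94384_co
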